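import Mathlib
import Pool.Agent.H.MP_5d8c24_an.D

namespace Pool.Agent.H.MP_4abfef_an

open MeasureTheory Set Filter Topology ProbabilityTheory Pool.Agent.H.MP_a7cd30_an
  Pool.Agent.H.MP_5d8c24_an
open scoped RealInnerProductSpace

section
variable {Y : Type} [MeasurableSpace Y] {ν : Measure Y} [IsProbabilityMeasure ν]

lemma tele {ι : Type} [DecidableEq ι] (C : ι → Set Y) (a : ι → ℕ) (s : Finset ι)
    (ha : Set.InjOn a s) :
    |ν.real {y | ∀ i ∈ s, y ∈ C i} - ∏ i ∈ s, ν.real (C i)| ≤
      ∑ j ∈ s, |ν.real (C j ∩ {y | ∀ i ∈ s, a j < a i → y ∈ C i}) -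
        ν.real (C j) * ν.real {y | ∀ i ∈ s, a j < a i → y ∈ C i}| := by
  induction s using Finset.induction_on_min_value a with
  | empty => simp
  | insert e s he hm ih =>
    have lt : ∀ i ∈ s, a e < a i := fun i hi => lt_of_le_of_ne (hm i hi) fun q =>
      he (ha (Finset.mem_insert_self _ _) (Finset.mem_insert_of_mem hi) q ▸ hi)
    have e1 : {y | ∀ i ∈ insert e s, a e < a i → y ∈ C i} = {y | ∀ i ∈ s, y ∈ C i} := by
      ext y
      simp only [mem_ofPred_eq, Finset.forall_mem_insert, lt_irrefl, false_imp_iff, true_and]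
      exact forall₂_congr fun i hi => by simp [lt i hi]
    have e2 : ∀ j ∈ s, {y | ∀ i ∈ insert e s, a j < a i → y ∈ C i} =
        {y | ∀ i ∈ s, a j < a i → y ∈ C i} := fun j hj => by
      ext y
      simp [(lt j hj).le.not_gt]
    have e3 : {y | ∀ i ∈ insert e s, y ∈ C i} = C e ∩ {y | ∀ i ∈ s, y ∈ C i} := by
      ext y; simp
    rw [Finset.sum_insert he, Finset.prod_insert he, e1, e3,
      Finset.sum_congr rfl fun j hj => by rw [e2 j hj]]
    have ih' := ih (ha.mono (by simp))
    have b0 : 0 ≤ ν.real (C e) := measureReal_nonneg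
    have b1 : ν.real (C e) ≤ 1 := measureReal_le_one
    refine (abs_sub_le _ (ν.real (C e) * ν.real {y | ∀ i ∈ s, y ∈ C i}) _).trans
      (add_le_add le_rfl (le_trans ?_ ih'))
    rw [← mul_sub, abs_mul, abs_of_nonneg b0]
    exact mul_le_of_le_one_left (abs_nonneg _) b1

lemma bessel {ι : Type} [Fintype ι] {C : ι → Set Y} (hC : ∀ i, MeasurableSet (C i)) {p : ℝ}
    (h1 : ∀ i, ν.real (C i) = p) (h2 : ∀ i j, i ≠ j → ν.real (C i ∩ C j) = p ^ 2)
    {E : Set Y} (hE : MeasurableSet E) :
    ∑ i, |ν.real (C i ∩ E) - p * ν.real E| ≤ √(Fintype.card ι) := by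
  classical
  let I : ∀ A : Set Y, MeasurableSet A → Lp ℝ 2 ν := fun A hA =>
    indicatorConstLp 2 hA (measure_ne_top _ _) (1 : ℝ)
  have hI : ∀ A hA B hB, ⟪I A hA, I B hB⟫ = ν.real (A ∩ B) := fun A hA B hB => by
    simp only [I, L2.inner_indicatorConstLp_indicatorConstLp]
    simp
  let v : ι → Lp ℝ 2 ν := fun i => I _ (hC i) - p • I univ MeasurableSet.univ
  have hv : ∀ i j, ⟪v i, v j⟫ = ν.real (C i ∩ C j) - p ^ 2 := fun i j => by
    simp only [v, inner_sub_left, inner_sub_right, inner_smul_left, inner_smul_right, hI,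
      inter_univ, univ_inter, h1, probReal_univ, conj_trivial]
    ring
  have hE' : ∀ i, ⟪v i, I E hE⟫ = ν.real (C i ∩ E) - p * ν.real E := fun i => by
    simp only [v, inner_sub_left, inner_smul_left, hI, univ_inter, conj_trivial]
  let σ : ι → ℝ := fun i => if 0 ≤ ⟪v i, I E hE⟫ then 1 else -1
  have hσ : ∀ i, σ i * σ i = 1 := fun i => by simp only [σ]; split_ifs <;> norm_num
  have hσ' : ∀ i, σ i * ⟪v i, I E hE⟫ = |⟪v i, I E hE⟫| := fun i => by
    simp only [σ]
    split_ifs with h
    · rw [one_mul, abs_of_nonneg h]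
    · rw [abs_of_neg (not_le.1 h)]; ring
  have n1 : ‖∑ i, σ i • v i‖ ≤ √(Fintype.card ι) := by
    refine Real.le_sqrt_of_sq_le ?_
    rw [← real_inner_self_eq_norm_sq, sum_inner, Fintype.card, Finset.card_eq_sum_ones]
    push_cast
    refine Finset.sum_le_sum fun i _ => ?_
    rw [inner_sum, Finset.sum_eq_single i (fun j _ hj => by
      rw [inner_smul_left, inner_smul_right, hv, h2 _ _ hj.symm]; simp) (by simp),
      inner_smul_left, inner_smul_right, conj_trivial, ← mul_assoc, hσ, one_mul, hv]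
    linarith [measureReal_le_one (μ := ν) (s := C i ∩ C i), sq_nonneg p]
  have n2 : ‖I E hE‖ ≤ 1 := by
    refine (sq_le_one_iff₀ (norm_nonneg _)).1 ?_
    rw [← real_inner_self_eq_norm_sq, hI]
    exact measureReal_le_one
  have := real_inner_le_norm (∑ i, σ i • v i) (I E hE)
  rw [sum_inner] at this
  simp only [inner_smul_left, conj_trivial, hσ'] at this
  simp only [hE'] at this
  exact this.trans ((mul_le_of_le_one_right (norm_nonneg _) n2).trans n1)

lemma lam {ι : Type} {l : Filter ι} {Z : Type} [mZ : MeasurableSpace Z] {ρ : Measure Z}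
    [IsProbabilityMeasure ρ] {V : ι → Y → Z} (hV : ∀ m, MeasurePreserving (V m) ν ρ)
    {R : ι → Set Y} (hR : ∀ m, MeasurableSet (R m)) {c : ℝ} {P : Set (Set Z)}
    (hP : mZ = MeasurableSpace.generateFrom P) (hP' : IsPiSystem P) (hu : univ ∈ P)
    (h : ∀ F ∈ P, Tendsto (fun m => ν.real (V m ⁻¹' F ∩ R m)) l (𝓝 (ρ.real F * c)))
    (F : Set Z) (hF : MeasurableSet F) :
    Tendsto (fun m => ν.real (V m ⁻¹' F ∩ R m)) l (𝓝 (ρ.real F * c)) := by
  induction F, hF using MeasurableSpace.induction_on_inter hP hP' with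
  | empty => simpa using tendsto_const_nhds
  | basic t ht => exact h t ht
  | compl t ht ih =>
    have := (h _ hu).sub ih
    rw [← sub_mul, probReal_univ, ← probReal_compl_eq_one_sub ht] at this
    refine this.congr fun m => ?_
    rw [preimage_univ, univ_inter, ← measureReal_inter_add_sdiff (s := R m)
      ((hV m).measurable ht), inter_comm, add_sub_cancel_left, preimage_compl, inter_comm]
    rfl
  | iUnion f hd hf ih =>
    have e : ∀ {W : Type} [MeasurableSpace W] (ρ' : Measure W) [IsProbabilityMeasure ρ']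
        (g : ℕ → Set W), Pairwise (Function.onFun Disjoint g) → (∀ i, MeasurableSet (g i)) →
        HasSum (fun i => ρ'.real (g i)) (ρ'.real (⋃ i, g i)) := fun ρ' _ g h1 h2 => by
      have := ENNReal.hasSum_toReal (f := fun i => ρ' (g i))
        (by rw [← measure_iUnion h1 h2]; exact measure_ne_top _ _)
      rwa [← ENNReal.tsum_toReal_eq fun i => measure_ne_top _ _, ← measure_iUnion h1 h2] at this
    have := tendsto_tsum_of_dominated_convergence (e ρ f hd hf).summable ih
      (Eventually.of_forall fun m k => by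
        rw [Real.norm_eq_abs, abs_of_nonneg measureReal_nonneg,
          ← (hV m).measureReal_preimage (hf k).nullMeasurableSet]
        exact measureReal_mono inter_subset_left)
    rw [tsum_mul_right, (e ρ f hd hf).tsum_eq] at this
    refine this.congr fun m => ?_
    rw [preimage_iUnion, iUnion_inter]
    exact (e ν _ (fun i j hij => ((hd hij).preimage (V m)).mono inter_subset_left
      inter_subset_left) fun i => ((hV m).measurable (hf i)).inter (hR m)).tsum_eq

lemma lam_all {ι κ : Type} [Fintype κ] {l : Filter ι} {V : ι → κ → Y → Y}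
    (hV : ∀ m j, MeasurePreserving (V m j) ν ν) {P : Set (Set Y)}
    (hP : ‹MeasurableSpace Y› = MeasurableSpace.generateFrom P) (hP' : IsPiSystem P)
    (hu : univ ∈ P) (h : ∀ E : κ → Set Y, (∀ j, E j ∈ P) →
      Tendsto (fun m => ν.real (⋂ j, V m j ⁻¹' E j)) l (𝓝 (∏ j, ν.real (E j))))
    (E : κ → Set Y) (hE : ∀ j, MeasurableSet (E j)) :
    Tendsto (fun m => ν.real (⋂ j, V m j ⁻¹' E j)) l (𝓝 (∏ j, ν.real (E j))) := by
  classical
  have mP : ∀ F ∈ P, MeasurableSet F := fun F hF =>
    hP ▸ MeasurableSpace.measurableSet_generateFrom hF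
  suffices H : ∀ s : Finset κ, ∀ E : κ → Set Y, (∀ j, MeasurableSet (E j)) →
      (∀ j ∉ s, E j ∈ P) →
      Tendsto (fun m => ν.real (⋂ j, V m j ⁻¹' E j)) l (𝓝 (∏ j, ν.real (E j))) from
    H Finset.univ E hE (by simp)
  intro s
  induction s using Finset.induction_on with
  | empty => exact fun E _ hE => h E fun j => hE j (by simp)
  | insert a s ha ih =>
    intro E hE hEP
    have e1 : ∀ m F, V m a ⁻¹' F ∩ ⋂ j ∈ Finset.univ.erase a, V m j ⁻¹' E j =
        ⋂ j, V m j ⁻¹' Function.update E a F j := fun m F => by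
      ext y
      simp only [mem_inter_iff, mem_iInter, Finset.mem_erase, Finset.mem_univ, and_true]
      refine ⟨fun hy j => ?_, fun hy => ⟨by simpa using hy a, fun j hj => by
        simpa [Function.update_of_ne hj] using hy j⟩⟩
      by_cases q : j = a
      · subst q; simpa using hy.1
      · simpa [Function.update_of_ne q] using hy.2 j q
    have e2 : ∀ F, ν.real F * ∏ j ∈ Finset.univ.erase a, ν.real (E j) =
        ∏ j, ν.real (Function.update E a F j) := fun F => by
      rw [← Finset.mul_prod_erase _ _ (Finset.mem_univ a), Function.update_self]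
      exact congrArg _ (Finset.prod_congr rfl fun j hj => by
        rw [Function.update_of_ne (Finset.ne_of_mem_erase hj)])
    have := lam (l := l) (fun m => hV m a)
      (R := fun m => ⋂ j ∈ Finset.univ.erase a, V m j ⁻¹' E j)
      (fun m => MeasurableSet.biInter (to_countable _) fun j _ => (hV m j).measurable (hE j))
      (c := ∏ j ∈ Finset.univ.erase a, ν.real (E j)) hP hP' hu (fun F hF => by
        simp only [e1, e2]
        refine ih _ (fun j => ?_) fun j hj => ?_
        · by_cases q : j = a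
          · subst q; simpa using mP F hF
          · simpa [Function.update_of_ne q] using hE j
        · by_cases q : j = a
          · subst q; simpa using hF
          · simpa [Function.update_of_ne q] using hEP j (by simp [q, hj])) (E a) (hE a)
    simpa only [e1, e2, Function.update_eq_self] using this

lemma distr {V : Y → Y} (hV : MeasurePreserving V ν ν) {g : Y → ℕ} (hg : Measurable g)
    {Z : Set Y} {κ : ℝ} (hZ : ν.real Z ≤ κ) (h : ∀ x ∉ Z, g (V x) = g x + 1) {q : ℕ} (q0 : 0 < q)
    (c : ℕ) : ν.real {x | g x % q = c % q} ≤ 1 / q + q * κ := by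
  have κ0 : 0 ≤ κ := measureReal_nonneg.trans hZ
  have m : ∀ c, MeasurableSet {x | g x % q = c % q} := fun c =>
    hg (MeasurableSet.of_discrete (s := {n | n % q = c % q}))
  have a : ∀ i : ℕ, ν.real {x | g x % q = c % q} ≤ ν.real {x | g x % q = (c + i) % q} + i * κ := by
    intro i
    induction i with
    | zero => simp
    | succ i ih =>
      have b : ν.real {x | g x % q = (c + i) % q} ≤
          ν.real {x | g x % q = (c + (i + 1)) % q} + κ := by
        rw [← hV.measureReal_preimage (m (c + (i + 1))).nullMeasurableSet]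
        refine (measureReal_mono (s₂ := V ⁻¹' {x | g x % q = (c + (i + 1)) % q} ∪ Z)
          fun x hx => ?_).trans ((measureReal_union_le _ _).trans (add_le_add le_rfl hZ))
        by_cases z : x ∈ Z
        · exact Or.inr z
        · refine Or.inl ?_
          rw [mem_preimage, mem_ofPred_eq, h x z, ← add_assoc]
          exact Nat.ModEq.add_right 1 hx
      push_cast; linarith
  have b : ∑ i ∈ Finset.range q, ν.real {x | g x % q = (c + i) % q} ≤ 1 := by
    rw [← measureReal_biUnion_finset _ fun i _ => m _]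
    · exact measureReal_le_one
    · intro i hi j hj hij
      refine disjoint_left.2 fun x h1 h2 => hij ?_
      exact Nat.ModEq.eq_of_lt_of_lt (Nat.ModEq.add_left_cancel' c (h1.symm.trans h2))
        (Finset.mem_range.1 hi) (Finset.mem_range.1 hj)
  have d := Finset.sum_le_sum (s := Finset.range q) fun i hi => (a i).trans (add_le_add le_rfl
    (mul_le_mul_of_nonneg_right (show (i : ℝ) ≤ q by exact_mod_cast (Finset.mem_range.1 hi).le) κ0))
  rw [Finset.sum_add_distrib] at d
  simp only [Finset.sum_const, Finset.card_range, nsmul_eq_mul] at d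
  have q1 : (0 : ℝ) < q := by exact_mod_cast q0
  rw [div_add' _ _ _ q1.ne', le_div_iff₀ q1]
  linarith

end

lemma sumper (g : ℕ → ℝ) (m ℓ ρ : ℕ) (ℓ0 : 0 < ℓ) :
    ∑ s ∈ Finset.range (ℓ * m), g ((ρ + s) / ℓ % m) = ℓ * ∑ c ∈ Finset.range m, g c := by
  induction ρ with
  | zero =>
    have : ∀ k ≤ m, ∑ s ∈ Finset.range (ℓ * k), g ((0 + s) / ℓ % m) =
        ℓ * ∑ c ∈ Finset.range k, g c := by
      intro k
      induction k with
      | zero => simp
      | succ k ih =>
        intro hk
        rw [mul_add_one, Finset.sum_range_add, ih (by omega), Finset.sum_range_succ, mul_add,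
          Finset.sum_congr (s₁ := Finset.range ℓ) rfl (g := fun _ => g k) fun s hs => by
            rw [zero_add, Nat.mul_add_div ℓ0, Nat.div_eq_of_lt (Finset.mem_range.1 hs), add_zero,
              Nat.mod_eq_of_lt hk]]
        simp
    exact this m le_rfl
  | succ ρ ih =>
    have a := Finset.sum_range_succ (fun s => g ((ρ + s) / ℓ % m)) (ℓ * m)
    rw [Finset.sum_range_succ', Nat.add_mul_div_left _ _ ℓ0, Nat.add_mod_right, add_zero,
      add_left_inj, ih] at a
    rw [← a]
    exact Finset.sum_congr rfl fun s _ => by rw [add_assoc, add_comm 1]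

variable {α : Type} [mα : MeasurableSpace α] [StandardBorelSpace α] {μ : Measure α}

theorem isoK [IsProbabilityMeasure μ] [NullSingletonClass μ] {κ : α → ℕ} (hκ : Measurable κ) :
    ∃ (f : α → ℝ) (g : ℝ → α), MeasurePreserving f μ mu ∧ MeasurePreserving g mu μ ∧
      (∀ᵐ x ∂μ, g (f x) = x) ∧ (∀ᵐ y ∂mu, f (g y) = y) ∧
      ∀ᵐ x ∂μ, ∀ t : ℕ, κ x ≤ t ↔ f x ≤ μ.real {z | κ z ≤ t} := by
  classical
  have : Nonempty α := nonempty_of_isProbabilityMeasure μ
  have hemb0 := measurableEmbedding_embeddingReal α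
  let ψ : α → ℝ := fun x => κ x + Real.sigmoid (embeddingReal α x)
  have hψ : Measurable ψ := ((measurable_from_top (f := fun n : ℕ => (n : ℝ))).comp hκ).add
    (continuous_sigmoid.measurable.comp hemb0.measurable)
  have hk : ∀ x y, ψ x ≤ ψ y → κ x ≤ κ y := fun x y h => by
    have : (κ x : ℝ) < κ y + 1 := by
      simp only [ψ] at h
      linarith [Real.sigmoid_pos (embeddingReal α x), Real.sigmoid_lt_one (embeddingReal α y)]
    exact Nat.lt_succ_iff.1 (by exact_mod_cast this)
  have hi : Function.Injective ψ := fun x y h => by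
    have e := le_antisymm (hk x y h.le) (hk y x h.ge)
    simp only [ψ, e, add_right_inj] at h
    exact hemb0.injective (Real.sigmoid_strictMono.injective h)
  have : IsProbabilityMeasure (μ.map ψ) := Measure.isProbabilityMeasure_map hψ.aemeasurable
  set ν := μ.map ψ with hν
  have hat : ∀ y, ν {y} = 0 := fun y => by
    rw [hν, Measure.map_apply hψ (measurableSet_singleton y)]
    exact (subsingleton_singleton.preimage hi).measure_zero _
  have h1 : MeasurePreserving (cdf ν ∘ ψ) μ mu := (cdf_mp ν hat).comp ⟨hψ, rfl⟩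
  have hval : ∀ x, cdf ν (ψ x) = μ.real {z | ψ z ≤ ψ x} := fun x => by
    rw [cdf_eq_real, hν, Measure.real, Measure.map_apply hψ measurableSet_Iic]; rfl
  let E : Set α := ⋂ q : ℚ, {x | ψ x ≤ q} ∪ {x | cdf ν q < cdf ν (ψ x)}
  have hE : MeasurableSet E := MeasurableSet.iInter fun q =>
    (measurableSet_le hψ measurable_const).union
      (measurableSet_lt measurable_const h1.measurable)
  have hEae : ∀ᵐ x ∂μ, x ∈ E := by
    simp only [E, mem_iInter]
    refine ae_all_iff.2 fun q => ?_
    have : ∀ᵐ y ∂mu, y ≠ cdf ν q := Measure.ae_ne _ _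
    filter_upwards [h1.quasiMeasurePreserving.ae this] with x hx
    rcases le_or_gt (ψ x) q with h | h
    · exact Or.inl h
    · exact Or.inr (lt_of_le_of_ne (monotone_cdf ν h.le) (Ne.symm hx))
  have hlt : ∀ x y, y ∈ E → ψ x < ψ y → cdf ν (ψ x) < cdf ν (ψ y) := by
    intro x y hy hxy
    obtain ⟨q, hq1, hq2⟩ := exists_rat_btwn hxy
    rcases mem_iInter.1 hy q with h | h
    · exact absurd h (not_le.2 hq2)
    · exact (monotone_cdf ν hq1.le).trans_lt h
  let R1 : α → ℝ := E.piecewise (cdf ν ∘ ψ) fun x => 2 + Real.exp (ψ x)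
  have hR1 : Measurable R1 := h1.measurable.piecewise hE (by fun_prop)
  have hinj : Function.Injective R1 := by
    intro x y hxy
    by_cases hx : x ∈ E <;> by_cases hy : y ∈ E
    · simp only [R1, piecewise_eq_of_mem _ _ _ hx, piecewise_eq_of_mem _ _ _ hy,
        Function.comp] at hxy
      rcases lt_trichotomy (ψ x) (ψ y) with h | h | h
      · exact absurd hxy (hlt x y hy h).ne
      · exact hi h
      · exact absurd hxy.symm (hlt y x hx h).ne
    · simp only [R1, piecewise_eq_of_mem _ _ _ hx, piecewise_eq_of_notMem _ _ _ hy,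
        Function.comp] at hxy
      linarith [cdf_le_one ν (ψ x), Real.exp_pos (ψ y)]
    · simp only [R1, piecewise_eq_of_notMem _ _ _ hx, piecewise_eq_of_mem _ _ _ hy,
        Function.comp] at hxy
      linarith [cdf_le_one ν (ψ y), Real.exp_pos (ψ x)]
    · simp only [R1, piecewise_eq_of_notMem _ _ _ hx, piecewise_eq_of_notMem _ _ _ hy] at hxy
      exact hi (Real.exp_injective (add_left_cancel hxy))
  have hemb := hR1.measurableEmbedding hinj
  have hg := hemb.measurable_invFun
  have hgf : ∀ᵐ x ∂μ, hemb.invFun ((cdf ν ∘ ψ) x) = x := hEae.mono fun x hx => by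
    have : (cdf ν ∘ ψ) x = R1 x := (piecewise_eq_of_mem _ _ _ hx).symm
    rw [this, hemb.leftInverse_invFun]
  refine ⟨cdf ν ∘ ψ, hemb.invFun, h1, ⟨hg, ?_⟩, hgf, ?_, ae_all_iff.2 fun t => ?_⟩
  · rw [← h1.map_eq, Measure.map_map hg h1.measurable,
      Measure.map_congr (f := hemb.invFun ∘ (cdf ν ∘ ψ)) (g := id) hgf, Measure.map_id]
  · have hm : MeasurableSet {y | (cdf ν ∘ ψ) (hemb.invFun y) = y} :=
      measurableSet_eq_fun (h1.measurable.comp hg) measurable_id
    rw [← h1.map_eq, ae_map_iff h1.measurable.aemeasurable hm]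
    filter_upwards [hgf] with x hx
    exact congrArg _ hx
  · have := ae_eq_of_subset_of_measure_ge (μ := μ) (s := {z | κ z ≤ t})
      (t := (cdf ν ∘ ψ) ⁻¹' Iic (μ.real {z | κ z ≤ t}))
      (fun x hx => by
        rw [mem_preimage, Function.comp, hval, mem_Iic]
        exact measureReal_mono fun z hz => (hk z x hz).trans hx)
      (by
        rw [h1.measure_preimage measurableSet_Iic.nullMeasurableSet,
          Measure.restrict_apply measurableSet_Iic]
        refine (measure_mono (t := Icc 0 (μ.real {z | κ z ≤ t})) fun y hy => ⟨hy.2.1, hy.1⟩).trans ?_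
        rw [Real.volume_Icc, sub_zero, ofReal_measureReal (measure_ne_top _ _)])
      (hκ (MeasurableSet.of_discrete (s := {n | n ≤ t}))).nullMeasurableSet (measure_ne_top _ _)
    filter_upwards [this] with x hx
    exact iff_of_eq hx

theorem indep [IsProbabilityMeasure μ] [NullSingletonClass μ] {N : ℕ} {D : Fin N → Set α}
    (hD : ∀ d, MeasurableSet (D d)) (m : ℕ) : ∃ R : ℕ → α ≃ᵐ α,
      (∀ c, MeasurePreserving (R c) μ μ) ∧ ∀ c < m, ∀ c' < m, c ≠ c' → ∀ d,
        μ.real (R c ⁻¹' D d ∩ R c' ⁻¹' D d) = μ.real (D d) ^ 2 := by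
  classical
  let ρ : Measure (Fin (m + 1) → α) := Measure.pi fun _ => μ
  let ξ : α → Fin N → Prop := fun y d => y ∈ D d
  let κ : α → ℕ := fun y => (Fintype.equivFin (Fin N → Prop) (ξ y)).val
  have hκ : Measurable κ := (measurable_of_countable (fun w : Fin N → Prop =>
    (Fintype.equivFin (Fin N → Prop) w).val)).comp
      (measurable_pi_lambda _ fun d => measurableSet_setOfPred.1 (hD d))
  have ev : ∀ c, MeasurePreserving (fun z : Fin (m + 1) → α => z c) ρ μ := fun c =>
    measurePreserving_eval (fun _ => μ) c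
  obtain ⟨f, g, hf, hg, gf, fg, k1⟩ := isoK (μ := μ) hκ
  obtain ⟨f', g', hf', hg', gf', fg', k2⟩ := isoK (μ := ρ) (hκ.comp (ev 0).measurable)
  have es : ∀ t : ℕ, ρ.real {z | (κ ∘ fun z => z 0) z ≤ t} = μ.real {z | κ z ≤ t} := fun t =>
    (ev 0).measureReal_preimage (s := {z | κ z ≤ t})
      (hκ (MeasurableSet.of_discrete (s := {n | n ≤ t}))).nullMeasurableSet
  have k3 : ∀ᵐ z ∂ρ, ξ (g (f' z)) = ξ (z 0) := by
    filter_upwards [(hg.comp hf').quasiMeasurePreserving.ae k1, k2,
      hf'.quasiMeasurePreserving.ae fg] with z h1 h2 h3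
    simp only [Function.comp, h3] at h1
    simp only [es] at h2
    have : κ (g (f' z)) = κ (z 0) := le_antisymm ((h1 _).2 ((h2 _).1 le_rfl))
      ((h2 _).2 ((h1 _).1 le_rfl))
    exact (Fintype.equivFin _).injective (Fin.ext this)
  let σ : Fin (m + 1) → (Fin (m + 1) → α) ≃ᵐ (Fin (m + 1) → α) := fun c =>
    MeasurableEquiv.arrowCongr' (Equiv.swap 0 c) (MeasurableEquiv.refl α)
  have hσ : ∀ c, MeasurePreserving (σ c) ρ ρ := fun c =>
    measurePreserving_arrowCongr' _ _ _ _ fun _ => MeasurePreserving.id μ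
  have σ0 : ∀ c z, σ c z 0 = z c := fun c z => by
    simp [σ, MeasurableEquiv.arrowCongr', Equiv.arrowCongr']
  have a : ∀ c, ∃ R : α ≃ᵐ α, MeasurePreserving R μ μ ∧ ∀ᵐ y ∂μ, ξ (R y) = ξ (g' (f y) c) := by
    intro c
    have h0 := (hσ c).comp (hg'.comp hf)
    obtain ⟨R, hR⟩ := realize' ((hg.comp hf').comp h0)
      ((hg.comp hf').measurable.comp ((σ c).symm.measurable.comp (hg'.comp hf).measurable)) (by
        filter_upwards [gf, hf.quasiMeasurePreserving.ae fg', h0.quasiMeasurePreserving.ae gf',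
          (hf'.comp h0).quasiMeasurePreserving.ae fg] with y h1 h2 h3 h4
        simp only [Function.comp] at h3 h4 ⊢
        rw [h4, h3, MeasurableEquiv.symm_apply_apply, h2, h1])
    refine ⟨R.1, R.2, ?_⟩
    filter_upwards [hR, h0.quasiMeasurePreserving.ae k3] with y h1 h2
    rw [h1]
    simp only [Function.comp] at h2 ⊢
    rw [h2, σ0]
  choose R hR hR' using a
  refine ⟨fun c => R (Fin.ofNat _ c), fun c => hR _, fun c hc c' hc' hne d => ?_⟩
  have ne : Fin.ofNat (m + 1) c ≠ Fin.ofNat (m + 1) c' := fun q => hne (by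
    have := congrArg Fin.val q
    simp only [Fin.val_ofNat] at this
    rwa [Nat.mod_eq_of_lt (by omega), Nat.mod_eq_of_lt (by omega)] at this)
  dsimp only
  generalize Fin.ofNat (m + 1) c = u at ne
  generalize Fin.ofNat (m + 1) c' = u' at ne
  have i := ((iIndepFun_pi (μ := fun _ : Fin (m + 1) => μ) (X := fun _ => id)
    fun _ => aemeasurable_id).indepFun ne).measure_inter_preimage_eq_mul _ _ (hD d) (hD d)
  have e : (R u ⁻¹' D d ∩ R u' ⁻¹' D d : Set α) =ᵐ[μ] (g' ∘ f) ⁻¹'
      ((fun z => z u) ⁻¹' D d ∩ (fun z => z u') ⁻¹' D d) := by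
    filter_upwards [hR' u, hR' u'] with y h1 h2
    exact congrArg₂ And (congrFun h1 d) (congrFun h2 d)
  rw [measureReal_congr e, (hg'.comp hf).measureReal_preimage
    (((ev u).measurable (hD d)).inter ((ev u').measurable (hD d))).nullMeasurableSet, sq,
    Measure.real, Measure.real, ← ENNReal.toReal_mul]
  refine congrArg _ (i.trans ?_)
  exact congrArg₂ _ ((ev u).measure_preimage (hD d).nullMeasurableSet)
    ((ev u').measure_preimage (hD d).nullMeasurableSet)

end Pool.Agent.H.MP_4abfef_an
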