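import Mathlib
import Pool.Agent.H.MP_4abfef_an.A

namespace Pool.Agent.H.MP_4abfef_an

open MeasureTheory Set Filter Topology

variable {X Y : Type} [MeasurableSpace X] [MeasurableSpace Y] {μ : Measure X} {ν : Measure Y}

structure JM (ν : Measure Y) (F : X → Y ≃ᵐ Y) : Prop where
  mp : ∀ x, MeasurePreserving (F x) ν ν
  m1 : Measurable fun p : X × Y => F p.1 p.2
  m2 : Measurable fun p : X × Y => (F p.1).symm p.2

lemma JM.trans {F G : X → Y ≃ᵐ Y} (hF : JM ν F) (hG : JM ν G) :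
    JM ν fun x => (F x).trans (G x) :=
  ⟨fun x => (hG.mp x).comp (hF.mp x), hG.m1.comp (measurable_fst.prodMk hF.m1),
    hF.m2.comp (measurable_fst.prodMk hG.m2)⟩

lemma JM.symm {F : X → Y ≃ᵐ Y} (hF : JM ν F) : JM ν fun x => (F x).symm :=
  ⟨fun x => (hF.mp x).symm _, hF.m2, hF.m1⟩

lemma JM.comp {F : X → Y ≃ᵐ Y} (hF : JM ν F) {g : X → X} (hg : Measurable g) :
    JM ν fun x => F (g x) :=
  ⟨fun _ => hF.mp _, hF.m1.comp ((hg.comp measurable_fst).prodMk measurable_snd),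
    hF.m2.comp ((hg.comp measurable_fst).prodMk measurable_snd)⟩

lemma JM.const {R : Y ≃ᵐ Y} (h : MeasurePreserving R ν ν) : JM ν fun _ : X => R :=
  ⟨fun _ => h, R.measurable.comp measurable_snd, R.symm.measurable.comp measurable_snd⟩

lemma JM.sel {F : ℕ → X → Y ≃ᵐ Y} (hF : ∀ n, JM ν (F n)) {g : X → ℕ} (hg : Measurable g) :
    JM ν fun x => F (g x) x :=
  ⟨fun _ => (hF _).mp _,
    (measurable_from_prod_countable_right (f := fun q : ℕ × X × Y => F q.1 q.2.1 q.2.2)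
      fun n => (hF n).m1).comp ((hg.comp measurable_fst).prodMk measurable_id),
    (measurable_from_prod_countable_right (f := fun q : ℕ × X × Y => (F q.1 q.2.1).symm q.2.2)
      fun n => (hF n).m2).comp ((hg.comp measurable_fst).prodMk measurable_id)⟩

def co (T : X → X) (Φ : X → Y ≃ᵐ Y) : ℕ → X → Y ≃ᵐ Y
  | 0, _ => MeasurableEquiv.refl Y
  | n + 1, x => (co T Φ n x).trans (Φ (T^[n] x))

def sk (T : X → X) (Φ : X → Y ≃ᵐ Y) (p : X × Y) : X × Y := (T p.1, Φ p.1 p.2)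

omit [MeasurableSpace X] in
lemma sk_it (T : X → X) (Φ : X → Y ≃ᵐ Y) (n : ℕ) (p : X × Y) :
    (sk T Φ)^[n] p = (T^[n] p.1, co T Φ n p.1 p.2) := by
  induction n with
  | zero => rfl
  | succ n ih => rw [Function.iterate_succ_apply', ih, Function.iterate_succ_apply']; rfl

omit [MeasurableSpace X] in
lemma co_add (T : X → X) (Φ : X → Y ≃ᵐ Y) (n s : ℕ) (x : X) (y : Y) :
    co T Φ (s + n) x y = co T Φ s (T^[n] x) (co T Φ n x y) := by
  have := congrArg Prod.snd (Function.iterate_add_apply (sk T Φ) s n (x, y))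
  simpa only [sk_it] using this

lemma JM.co {T : X → X} (hT : Measurable T) {Φ : X → Y ≃ᵐ Y} (h : JM ν Φ) (n : ℕ) :
    JM ν (co T Φ n) := by
  induction n with
  | zero => exact JM.const (MeasurePreserving.id ν)
  | succ n ih => exact ih.trans (h.comp (hT.iterate n))

omit [MeasurableSpace X] in
lemma co_cob (T : X → X) (β : X → Y ≃ᵐ Y) (s : ℕ) (x : X) (y : Y) :
    co T (fun x => (β x).symm.trans (β (T x))) s x y = β (T^[s] x) ((β x).symm y) := by
  induction s with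
  | zero => simp [co]
  | succ s ih => simp [co, ih, Function.iterate_succ_apply']

variable [IsProbabilityMeasure μ] [IsProbabilityMeasure ν]

lemma sk_mp {T : X → X} (hT : MeasurePreserving T μ μ) {Φ : X → Y ≃ᵐ Y} (h : JM ν Φ) :
    MeasurePreserving (sk T Φ) (μ.prod ν) (μ.prod ν) :=
  hT.skew_product (g := fun x y => Φ x y) h.m1 (Eventually.of_forall fun x => (h.mp x).map_eq)

lemma fib_meas {E : Set (X × Y)} (hE : MeasurableSet E) :
    Measurable fun x => ν.real (Prod.mk x ⁻¹' E) :=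
  (measurable_measure_prodMk_left hE).ennreal_toReal

omit [IsProbabilityMeasure μ] in
lemma fib_int {E : Set (X × Y)} (hE : MeasurableSet E) :
    ∫ x, ν.real (Prod.mk x ⁻¹' E) ∂μ = (μ.prod ν).real E := by
  rw [Measure.real, Measure.prod_apply hE, ← integral_toReal
    (measurable_measure_prodMk_left hE).aemeasurable
    (Eventually.of_forall fun x => measure_lt_top _ _)]
  rfl

lemma int_of {f : X → ℝ} (hf : Measurable f) (h : ∀ x, |f x| ≤ 1) : Integrable f μ :=
  Integrable.of_bound hf.aestronglyMeasurable 1 (Eventually.of_forall h)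

lemma abs_le1 (A B C : Set Y) : |ν.real A - ν.real B * ν.real C| ≤ 1 := by
  have := measureReal_nonneg (μ := ν) (s := A)
  have := measureReal_le_one (μ := ν) (s := A)
  have := mul_nonneg (measureReal_nonneg (μ := ν) (s := B)) (measureReal_nonneg (μ := ν) (s := C))
  have := mul_le_one₀ (measureReal_le_one (μ := ν) (s := B))
    (measureReal_nonneg (μ := ν) (s := C)) (measureReal_le_one (μ := ν) (s := C))
  rw [abs_le]; constructor <;> linarith

lemma approx2 {ι : Type} [Fintype ι] {C C' : ι → Set Y} (hC : ∀ i, MeasurableSet (C i))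
    (hC' : ∀ i, MeasurableSet (C' i)) {e : ι → ℝ}
    (h : ∀ i, ν.real (symmDiff (C i) (C' i)) ≤ e i) (S : ι → Prop) (j : ι) :
    |ν.real (C j ∩ {y | ∀ i, S i → y ∈ C i}) - ν.real (C j) * ν.real {y | ∀ i, S i → y ∈ C i}| ≤
    |ν.real (C' j ∩ {y | ∀ i, S i → y ∈ C' i}) - ν.real (C' j) * ν.real {y | ∀ i, S i → y ∈ C' i}|
      + 3 * ∑ i, e i := by
  have m : ∀ C : ι → Set Y, (∀ i, MeasurableSet (C i)) → MeasurableSet {y | ∀ i, S i → y ∈ C i} :=
    fun C hC => by
      simp only [ofPred_forall]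
      exact MeasurableSet.iInter fun i => MeasurableSet.iInter fun _ => hC i
  have k : ∀ A A' : Set Y, MeasurableSet A → MeasurableSet A' →
      symmDiff A A' ⊆ ⋃ i, symmDiff (C i) (C' i) → |ν.real A - ν.real A'| ≤ ∑ i, e i :=
    fun A A' hA hA' hs => (abs_measureReal_sub_le_measureReal_symmDiff hA.nullMeasurableSet
      hA'.nullMeasurableSet).trans ((measureReal_mono hs).trans
        ((measureReal_iUnion_fintype_le _).trans (Finset.sum_le_sum fun i _ => h i)))
  have z : ∀ y, y ∉ ⋃ i, symmDiff (C i) (C' i) → ∀ i, y ∈ C i ↔ y ∈ C' i := fun y hy i => by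
    have := fun q => hy (mem_iUnion.2 ⟨i, q⟩)
    rw [mem_symmDiff] at this
    tauto
  have k1 := k _ _ ((hC j).inter (m C hC)) ((hC' j).inter (m C' hC')) fun y hy => by
    by_contra q
    simp only [mem_symmDiff, mem_inter_iff, mem_ofPred_eq, z y q, and_not_self_iff,
      or_self] at hy
  have k2 := k _ _ (hC j) (hC' j) (subset_iUnion (fun i => symmDiff (C i) (C' i)) j)
  have k3 := k _ _ (m C hC) (m C' hC') fun y hy => by
    by_contra q
    simp only [mem_symmDiff, mem_inter_iff, mem_ofPred_eq, z y q, and_not_self_iff,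
      or_self] at hy
  have b1 := measureReal_nonneg (μ := ν) (s := C j)
  have b2 := measureReal_le_one (μ := ν) (s := C j)
  have b3 := measureReal_nonneg (μ := ν) (s := {y | ∀ i, S i → y ∈ C' i})
  have b4 := measureReal_le_one (μ := ν) (s := {y | ∀ i, S i → y ∈ C' i})
  have a1 := le_abs_self (ν.real (C' j ∩ {y | ∀ i, S i → y ∈ C' i}) -
    ν.real (C' j) * ν.real {y | ∀ i, S i → y ∈ C' i})
  have a2 := neg_abs_le (ν.real (C' j ∩ {y | ∀ i, S i → y ∈ C' i}) -
    ν.real (C' j) * ν.real {y | ∀ i, S i → y ∈ C' i})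
  rw [abs_le] at k1 k2 k3 ⊢
  constructor <;> nlinarith [k1.1, k1.2, k2.1, k2.2, k3.1, k3.2]

lemma pt {ι : Type} [Fintype ι] {N m ℓ : ℕ} (ρ : ℕ) (ℓ0 : 0 < ℓ) {D : Fin N → Set Y}
    (hD : ∀ d, MeasurableSet (D d)) {R : ℕ → Y ≃ᵐ Y} (hR : ∀ c, MeasurePreserving (R c) ν ν)
    (hR' : ∀ c < m, ∀ c' < m, c ≠ c' → ∀ d,
      ν.real (R c ⁻¹' D d ∩ R c' ⁻¹' D d) = ν.real (D d) ^ 2)
    {U : ι → Y → Y} (hU : ∀ i, MeasurePreserving (U i) ν ν) (S : ι → Prop) (J0 : ι → ℕ) (j : ι)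
    {C : ℕ → ι → Set Y} (hC : ∀ s i, MeasurableSet (C s i)) {Js : ℕ → ι → ℕ}
    {d : ℕ → ι → Fin N} {e : ℕ → ι → ℝ}
    (h1 : ∀ s < ℓ * m, ∀ i, S i → Js s i = J0 i) (h2 : ∀ s < ℓ * m, Js s j = (ρ + s) / ℓ % m)
    (h3 : ∀ s i, ν.real (symmDiff (C s i) (U i ⁻¹' (R (Js s i) ⁻¹' D (d s i)))) ≤ e s i) :
    ∑ s ∈ Finset.range (ℓ * m), |ν.real (C s j ∩ {y | ∀ i, S i → y ∈ C s i}) -
      ν.real (C s j) * ν.real {y | ∀ i, S i → y ∈ C s i}| ≤
      N ^ Fintype.card ι * (ℓ * √m) + 3 * ∑ s ∈ Finset.range (ℓ * m), ∑ i, e s i := by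
  classical
  have mm : ∀ i c d, MeasurableSet (U i ⁻¹' (R c ⁻¹' D d)) := fun i c d =>
    (hU i).measurable ((R c).measurable (hD d))
  have vv : ∀ i c d, ν.real (U i ⁻¹' (R c ⁻¹' D d)) = ν.real (D d) := fun i c d =>
    ((hR c).comp (hU i)).measureReal_preimage (hD d).nullMeasurableSet
  let E : (ι → Fin N) → Set Y := fun δ => {y | ∀ i, S i → y ∈ U i ⁻¹' (R (J0 i) ⁻¹' D (δ i))}
  have hE : ∀ δ, MeasurableSet (E δ) := fun δ => by
    simp only [E, ofPred_forall]
    exact MeasurableSet.iInter fun i => MeasurableSet.iInter fun _ => mm _ _ _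
  let f : (ι → Fin N) → ℕ → ℝ := fun δ c =>
    |ν.real (U j ⁻¹' (R c ⁻¹' D (δ j)) ∩ E δ) - ν.real (D (δ j)) * ν.real (E δ)|
  have hf : ∀ δ, ∑ c ∈ Finset.range m, f δ c ≤ √m := fun δ => by
    have := bessel (ι := Fin m) (C := fun c => U j ⁻¹' (R c ⁻¹' D (δ j))) (fun c => mm _ _ _)
      (fun c => vv _ _ _) (fun c c' h => by
        rw [← preimage_inter, (hU j).measureReal_preimage
          (((R _).measurable (hD _)).inter ((R _).measurable (hD _))).nullMeasurableSet]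
        exact hR' _ c.2 _ c'.2 (fun q => h (Fin.ext q)) _) (hE δ)
    rwa [Fintype.card_fin, Fin.sum_univ_eq_sum_range (f δ)] at this
  refine (Finset.sum_le_sum (g := fun s => ∑ δ, f δ ((ρ + s) / ℓ % m) + 3 * ∑ i, e s i)
    fun s hs => ?_).trans ?_
  · have hs' := Finset.mem_range.1 hs
    refine (approx2 (hC s) (fun i => mm _ _ _) (h3 s) S j).trans (add_le_add ?_ le_rfl)
    have e1 : {y | ∀ i, S i → y ∈ U i ⁻¹' (R (Js s i) ⁻¹' D (d s i))} = E (d s) := by
      ext y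
      exact forall₂_congr fun i hi => by rw [h1 s hs' i hi]
    rw [e1, vv, h2 s hs']
    exact Finset.single_le_sum (f := fun δ => f δ ((ρ + s) / ℓ % m)) (fun _ _ => abs_nonneg _)
      (Finset.mem_univ (d s))
  · rw [Finset.sum_add_distrib, ← Finset.mul_sum, Finset.sum_comm]
    refine add_le_add ((Finset.sum_le_sum (g := fun _ => ℓ * √m) fun δ _ => ?_).trans
      (le_of_eq (by simp))) le_rfl
    rw [sumper (f δ) m ℓ ρ ℓ0]
    exact mul_le_mul_of_nonneg_left (hf δ) (Nat.cast_nonneg _)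

end Pool.Agent.H.MP_4abfef_an
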