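import Mathlib
import Pool.Agent.H.MP_4abfef_an.B

namespace Pool.Agent.H.MP_4abfef_an

open MeasureTheory Set Filter Topology

variable {X Y : Type} [MeasurableSpace X] [MeasurableSpace Y] {μ : Measure X} {ν : Measure Y}
  [IsProbabilityMeasure μ] [IsProbabilityMeasure ν]

lemma nocross {ρ s L q : ℕ} (k : ℕ) (L0 : 0 < L) (q0 : 0 < q) (hs : s ≤ L)
    (h : ρ / L % q ≠ (q - 1) % q) : (ρ + s) / (L * q * k) = ρ / (L * q * k) := by
  simp only [← Nat.div_div_eq_div_mul]
  congr 1
  refine le_antisymm ?_ (Nat.div_le_div_right (Nat.div_le_div_right (Nat.le_add_right _ _)))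
  rw [← Nat.succ_div_of_not_dvd (a := ρ / L) fun d => h (Nat.ModEq.add_right_cancel' 1 (by
    rw [Nat.sub_add_cancel q0]
    exact (Nat.modEq_zero_iff_dvd.2 d).trans (Nat.modEq_zero_iff_dvd.2 dvd_rfl).symm)),
    ← Nat.add_div_right _ L0]
  exact Nat.div_le_div_right (Nat.div_le_div_right (Nat.add_le_add_left hs _))

def ZL (T : X → X) (Z : Set X) (L : ℕ) : Set X := ⋃ s ∈ Finset.range L, T^[s] ⁻¹' Z

section
variable {T : X → X} {r : X → ℕ} {Z : Set X} {κ : ℝ}

lemma ZL_meas (hT : Measurable T) (mZ : MeasurableSet Z) (L : ℕ) : MeasurableSet (ZL T Z L) :=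
  MeasurableSet.biUnion (to_countable _) fun s _ => hT.iterate s mZ

omit [IsProbabilityMeasure μ] in
lemma ZL_le (hT : MeasurePreserving T μ μ) (mZ : MeasurableSet Z) (hZ : μ.real Z ≤ κ) (L : ℕ) :
    μ.real (ZL T Z L) ≤ L * κ := by
  refine (measureReal_biUnion_finset_le _ _).trans ((Finset.sum_le_sum (g := fun _ => κ)
    fun s _ => ?_).trans (by simp))
  rwa [(hT.iterate s).measureReal_preimage mZ.nullMeasurableSet]

omit [MeasurableSpace X] in
lemma ZL_r (h : ∀ x ∉ Z, r (T x) = r x + 1) {L : ℕ} {x : X} (hx : x ∉ ZL T Z L) :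
    ∀ s ≤ L, r (T^[s] x) = r x + s := by
  intro s
  induction s with
  | zero => simp
  | succ s ih =>
    intro hs
    rw [Function.iterate_succ_apply', h _ fun q => hx (mem_iUnion₂.2
      ⟨s, Finset.mem_range.2 hs, q⟩), ih (by omega), add_assoc]

lemma distr2 (hT : MeasurePreserving T μ μ) (hr : Measurable r) (mZ : MeasurableSet Z)
    (hZ : μ.real Z ≤ κ) (h : ∀ x ∉ Z, r (T x) = r x + 1) {L q : ℕ} (L0 : 0 < L) (q0 : 0 < q)
    (c : ℕ) : μ.real {x | r x / L % q = c % q} ≤ 1 / q + q * (L * κ) :=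
  distr (hT.iterate L) (g := fun x => r x / L) ((measurable_from_top (f := (· / L))).comp hr)
    (ZL_le hT mZ hZ L) (fun x hx => by rw [ZL_r h hx L le_rfl, Nat.add_div_right _ L0]) q0 c

end

noncomputable def Q {ι : Type} [Fintype ι] (μ : Measure X) (ν : Measure Y) (T : X → X)
    (Φ : X → Y ≃ᵐ Y) (n : ι → ℕ) (B : ι → Set Y) : ℝ :=
  ∫ x, |ν.real {y | ∀ i, co T Φ (n i) x y ∈ B i} - ∏ i, ν.real (B i)| ∂μ

lemma int_ind {A : Set X} (hA : MeasurableSet A) {V : X → X} (hV : MeasurePreserving V μ μ) :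
    Integrable (fun x => A.indicator (fun _ => (1 : ℝ)) (V x)) μ ∧
    ∫ x, A.indicator (fun _ => (1 : ℝ)) (V x) ∂μ = μ.real A := by
  have e : (fun x => A.indicator (fun _ => (1 : ℝ)) (V x)) = (V ⁻¹' A).indicator fun _ => 1 := rfl
  rw [e, ← hV.measureReal_preimage hA.nullMeasurableSet]
  exact ⟨(integrable_const _).indicator (hV.measurable hA), by
    simp [integral_indicator (hV.measurable hA)]⟩

omit [MeasurableSpace X] in
lemma ind0 (A : Set X) (x : X) : 0 ≤ A.indicator (fun _ => (1 : ℝ)) x :=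
  indicator_nonneg (fun _ _ => zero_le_one) x

lemma core {ι : Type} [Fintype ι] {T : X → X} (hT : MeasurePreserving T μ μ) {B : ι → Set Y}
    (hB : ∀ i, MeasurableSet (B i)) {r : X → ℕ} (hr : Measurable r) {Z : Set X}
    (mZ : MeasurableSet Z) {κ η : ℝ} (hZ : μ.real Z ≤ κ) (hrZ : ∀ x ∉ Z, r (T x) = r x + 1)
    {β : X → Y ≃ᵐ Y} {N m q h0 M : ℕ} (N0 : 0 < N) (m0 : 0 < m) (q0 : 0 < q)
    (h00 : 0 < h0) (M0 : 0 < M) {D : Fin N → Set Y} (hD : ∀ d, MeasurableSet (D d))
    {bad : Set X} (mb : MeasurableSet bad) (hb : μ.real bad ≤ η)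
    (hbad : ∀ x ∉ bad, ∀ i, ∃ d, ν.real (symmDiff (β x ⁻¹' B i) (D d)) ≤ η)
    {R : ℕ → Y ≃ᵐ Y} (hR : ∀ c, MeasurePreserving (R c) ν ν)
    (hR' : ∀ c < m, ∀ c' < m, c ≠ c' → ∀ d,
      ν.real (R c ⁻¹' D d ∩ R c' ⁻¹' D d) = ν.real (D d) ^ 2)
    {ℓ : ℕ → ℕ} (hℓ : ∀ a, ℓ a = h0 * (m * q) ^ a) {pc J : X → ℕ}
    (hpc : ∀ x, pc x = r x / ℓ M % M) (hJ : ∀ x, J x = r x / ℓ (pc x) % m)
    {β2 Φ2 Φ : X → Y ≃ᵐ Y} (hβ2 : ∀ x, β2 x = (R (J x)).trans (β x)) (j2 : JM ν β2)
    (hΦ2 : Φ2 = fun x => (β2 x).symm.trans (β2 (T x))) (hΦ : JM ν Φ)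
    (hcl : ∀ s < ℓ M, ∀ i, (μ.prod ν).real (symmDiff ((sk T Φ)^[s] ⁻¹' (univ ×ˢ B i))
      ((sk T Φ2)^[s] ⁻¹' (univ ×ˢ B i))) ≤ η) (n : ι → ℕ) :
    Q μ ν T Φ n B ≤ μ.real {x | ¬ Function.Injective fun i => pc (T^[n i] x)} +
      Fintype.card ι * (M * (N ^ Fintype.card ι / √m +
        Fintype.card ι * (1 / q + 2 * (ℓ M * κ)) + 9 * (Fintype.card ι * η))) := by
  classical
  have η0 : 0 ≤ η := measureReal_nonneg.trans hb
  have κ0 : 0 ≤ κ := measureReal_nonneg.trans hZ
  have ℓ0 : ∀ a, 0 < ℓ a := fun a => by rw [hℓ]; positivity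
  have mpc : Measurable pc := by
    rw [funext hpc]; exact (measurable_from_top (f := (· / ℓ M % M))).comp hr
  have jΦ2 : JM ν Φ2 := hΦ2 ▸ j2.symm.trans (j2.comp hT.measurable)
  have jc := hΦ.co hT.measurable
  let C : ι → X → Set Y := fun i x => co T Φ (n i) x ⁻¹' B i
  let Rs : ℕ → X → Set Y := fun a x => {y | ∀ i, a < pc (T^[n i] x) → y ∈ C i x}
  have gC : ∀ i, MeasurableSet {p : X × Y | p.2 ∈ C i p.1} := fun i => (jc (n i)).m1 (hB i)
  have gR : ∀ a, MeasurableSet {p : X × Y | p.2 ∈ Rs a p.1} := fun a => by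
    simp only [Rs, mem_ofPred_eq, ofPred_forall (p := fun i (p : X × Y) =>
      a < pc (T^[n i] p.1) → p.2 ∈ C i p.1)]
    exact MeasurableSet.iInter fun i => MeasurableSet.imp (((mpc.comp
      (hT.measurable.iterate _)).comp measurable_fst)
        (MeasurableSet.of_discrete (s := {n | a < n}))) (gC i)
  let t0 : ι → ℕ → X → ℝ := fun j a x =>
    |ν.real (C j x ∩ Rs a x) - ν.real (C j x) * ν.real (Rs a x)|
  let term : ι → ℕ → X → ℝ := fun j a x => if pc (T^[n j] x) = a then t0 j a x else 0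
  have tm : ∀ j a, Measurable (term j a) := fun j a =>
    Measurable.ite ((mpc.comp (hT.measurable.iterate _)) (measurableSet_singleton a))
      ((fib_meas ((gC j).inter (gR a))).sub ((fib_meas (gC j)).mul (fib_meas (gR a)))).abs
      measurable_const
  have tn : ∀ j a x, 0 ≤ term j a x := fun j a x => by
    simp only [term]; split_ifs
    exacts [abs_nonneg _, le_rfl]
  have t1 : ∀ j a x, term j a x ≤ 1 := fun j a x => by
    simp only [term]; split_ifs
    exacts [abs_le1 _ _ _, zero_le_one]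
  have ti : ∀ j a, Integrable (term j a) μ := fun j a =>
    int_of (tm j a) fun x => by rw [abs_of_nonneg (tn j a x)]; exact t1 j a x
  have main : ∀ j, ∀ a < M, ∫ x, term j a x ∂μ ≤ N ^ Fintype.card ι / √m +
      Fintype.card ι * (1 / q + 2 * (ℓ M * κ)) + 9 * (Fintype.card ι * η) := by
    intro j a ha
    have L0 : 0 < ℓ a * m := Nat.mul_pos (ℓ0 a) m0
    have ℓe : ∀ a' > a, ℓ a' = ℓ a * m * q * (m * q) ^ (a' - (a + 1)) := fun a' h => by
      obtain ⟨k, rfl⟩ := Nat.exists_eq_add_of_lt h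
      rw [hℓ, hℓ, show a + k + 1 - (a + 1) = k by omega]; ring
    have Lq : ℓ a * m * q ≤ ℓ M := by
      rw [ℓe M ha]; exact Nat.le_mul_of_pos_right _ (by positivity)
    have LM : ℓ a * m ≤ ℓ M := (Nat.le_mul_of_pos_right _ q0).trans Lq
    let Ex : Set X := ZL T Z (ℓ a * m) ∪ {x | r x / (ℓ a * m) % q = (q - 1) % q}
    have mE : MeasurableSet Ex := (ZL_meas hT.measurable mZ _).union
      (hr (MeasurableSet.of_discrete (s := {n | n / (ℓ a * m) % q = (q - 1) % q})))
    have hE : μ.real Ex ≤ 1 / q + 2 * (ℓ M * κ) := by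
      refine (measureReal_union_le _ _).trans ((add_le_add (ZL_le hT mZ hZ _)
        (distr2 hT hr mZ hZ hrZ L0 q0 _)).trans ?_)
      have a1 : ((ℓ a * m : ℕ) : ℝ) ≤ ℓ M := by exact_mod_cast LM
      have a2 : ((ℓ a * m : ℕ) : ℝ) * q ≤ ℓ M := by exact_mod_cast Lq
      nlinarith [mul_le_mul_of_nonneg_right a1 κ0, mul_le_mul_of_nonneg_right a2 κ0]
    let W : ℕ → ι → Set (X × Y) := fun s i => symmDiff ((sk T Φ)^[s] ⁻¹' (univ ×ˢ B i))
      ((sk T Φ2)^[s] ⁻¹' (univ ×ˢ B i))
    have mW : ∀ s i, MeasurableSet (W s i) := fun s i =>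
      (((sk_mp hT hΦ).iterate s).measurable (MeasurableSet.univ.prod (hB i))).symmDiff
        (((sk_mp hT jΦ2).iterate s).measurable (MeasurableSet.univ.prod (hB i)))
    let e : ℕ → ι → X → ℝ := fun s i x => ν.real (Prod.mk (T^[n i] x) ⁻¹' W s i) + η +
      bad.indicator (fun _ => (1 : ℝ)) ((T^[s] ∘ T^[n i]) x)
    have e0 : ∀ s i x, 0 ≤ e s i x := fun s i x =>
      add_nonneg (add_nonneg measureReal_nonneg η0) (ind0 _ _)
    have ei : ∀ s i, Integrable (e s i) μ ∧ (s < ℓ a * m → ∫ x, e s i x ∂μ ≤ 3 * η) := by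
      intro s i
      have i1 : Integrable (fun x => ν.real (Prod.mk (T^[n i] x) ⁻¹' W s i)) μ :=
        int_of ((fib_meas (mW s i)).comp (hT.measurable.iterate _)) fun x => by
          rw [abs_of_nonneg measureReal_nonneg]; exact measureReal_le_one
      obtain ⟨i2, i3⟩ := int_ind mb ((hT.iterate s).comp (hT.iterate (n i)))
      refine ⟨(i1.add (integrable_const _)).add i2, fun hs => ?_⟩
      have i4 : Integrable (fun x => ν.real (Prod.mk (T^[n i] x) ⁻¹' W s i) + η) μ :=
        i1.add (integrable_const _)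
      rw [integral_add i4 i2, integral_add i1 (integrable_const _), i3,
        ← integral_map (hT.iterate (n i)).measurable.aemeasurable
          (fib_meas (mW s i)).aestronglyMeasurable, (hT.iterate (n i)).map_eq, fib_int (mW s i)]
      have := hcl s (hs.trans_le LM) i
      simp only [integral_const, probReal_univ, one_smul]
      linarith
    have pw : ∀ x, ∑ s ∈ Finset.range (ℓ a * m), term j a (T^[s] x) ≤
        N ^ Fintype.card ι * (ℓ a * √m) +
        (ℓ a * m : ℕ) * ∑ i, Ex.indicator (fun _ => (1 : ℝ)) (T^[n i] x) +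
        3 * ∑ s ∈ Finset.range (ℓ a * m), ∑ i, e s i x := by
      intro x
      have p1 : (0 : ℝ) ≤ N ^ Fintype.card ι * (ℓ a * √m) := by positivity
      have p2 : 0 ≤ ∑ i, Ex.indicator (fun _ => (1 : ℝ)) (T^[n i] x) :=
        Finset.sum_nonneg fun _ _ => ind0 _ _
      have p3 : 0 ≤ ∑ s ∈ Finset.range (ℓ a * m), ∑ i, e s i x :=
        Finset.sum_nonneg fun _ _ => Finset.sum_nonneg fun _ _ => e0 _ _ _
      have p4 : (0 : ℝ) ≤ (ℓ a * m : ℕ) := Nat.cast_nonneg _
      by_cases c : ∃ i, T^[n i] x ∈ Ex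
      · obtain ⟨i, hi⟩ := c
        have p5 := Finset.single_le_sum (f := fun i => Ex.indicator (fun _ => (1 : ℝ)) (T^[n i] x))
          (fun _ _ => ind0 _ _) (Finset.mem_univ i)
        simp only [indicator_of_mem hi] at p5
        have p6 := Finset.sum_le_sum (s := Finset.range (ℓ a * m)) fun s _ => t1 j a (T^[s] x)
        simp only [Finset.sum_const, Finset.card_range, nsmul_eq_mul, mul_one] at p6
        nlinarith
      push Not at c
      have cm : ∀ i s, T^[n i] (T^[s] x) = T^[s] (T^[n i] x) := fun i s => by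
        rw [← Function.iterate_add_apply, add_comm, Function.iterate_add_apply]
      have r1 : ∀ i, ∀ s < ℓ a * m, r (T^[s] (T^[n i] x)) = r (T^[n i] x) + s := fun i s hs =>
        ZL_r hrZ (fun z => c i (Or.inl z)) s hs.le
      have r2 : ∀ i, ∀ s < ℓ a * m, ∀ a' > a,
          r (T^[s] (T^[n i] x)) / ℓ a' = r (T^[n i] x) / ℓ a' := fun i s hs a' h => by
        rw [r1 i s hs, ℓe a' h]
        exact nocross _ L0 q0 hs.le fun z => c i (Or.inr z)
      have r3 : ∀ i, ∀ s < ℓ a * m, pc (T^[s] (T^[n i] x)) = pc (T^[n i] x) := fun i s hs => by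
        rw [hpc, hpc, r2 i s hs M ha]
      by_cases c2 : pc (T^[n j] x) = a
      swap
      · rw [Finset.sum_eq_zero fun s hs => if_neg (by rwa [cm, r3 j s (Finset.mem_range.1 hs)])]
        positivity
      have hd : ∀ s i, ∃ d, ν.real (symmDiff (β (T^[s] (T^[n i] x)) ⁻¹' B i) (D d)) ≤
          η + bad.indicator (fun _ => (1 : ℝ)) ((T^[s] ∘ T^[n i]) x) := fun s i => by
        by_cases z : T^[s] (T^[n i] x) ∈ bad
        · exact ⟨⟨0, N0⟩, measureReal_le_one.trans (by
            rw [Function.comp, indicator_of_mem z]; linarith)⟩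
        · obtain ⟨d, hd⟩ := hbad _ z i
          exact ⟨d, hd.trans (le_add_of_nonneg_right (ind0 _ _))⟩
      choose d hd using hd
      have := pt (r (T^[n j] x)) (ℓ0 a) hD hR hR'
        (U := fun i => (β2 (T^[n i] x)).symm ∘ co T Φ (n i) x)
        (fun i => (j2.symm.mp _).comp ((jc _).mp _)) (fun i => a < pc (T^[n i] x))
        (fun i => J (T^[n i] x)) j
        (C := fun s i => co T Φ (n i) x ⁻¹' (co T Φ s (T^[n i] x) ⁻¹' B i))
        (fun s i => (co T Φ _ _).measurable ((co T Φ _ _).measurable (hB i)))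
        (Js := fun s i => J (T^[s] (T^[n i] x))) (d := d) (e := fun s i => e s i x)
        (fun s hs i hi => by rw [hJ, hJ, r3 i s hs, r2 i s hs _ hi])
        (fun s hs => by rw [hJ, r3 j s hs, c2, r1 j s hs]) fun s i => ?_
      · refine le_trans (le_of_eq (Finset.sum_congr rfl fun s hs => ?_)) (this.trans ?_)
        · have hs' := Finset.mem_range.1 hs
          have mp := (jc s).mp x
          have eC : ∀ i, co T Φ s x ⁻¹' C i (T^[s] x) =
              co T Φ (n i) x ⁻¹' (co T Φ s (T^[n i] x) ⁻¹' B i) := fun i => by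
            ext y
            simp only [C, mem_preimage]
            rw [← co_add, ← co_add, add_comm]
          have mC : ∀ i, MeasurableSet (C i (T^[s] x)) := fun i => measurable_prodMk_left (gC i)
          have mR : MeasurableSet (Rs a (T^[s] x)) := measurable_prodMk_left (gR a)
          have eR : co T Φ s x ⁻¹' Rs a (T^[s] x) = {y | ∀ i, a < pc (T^[n i] x) →
              y ∈ co T Φ (n i) x ⁻¹' (co T Φ s (T^[n i] x) ⁻¹' B i)} := by
            ext y
            simp only [Rs, mem_preimage (s := {y | ∀ i, _}), mem_ofPred_eq, ← eC]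
            exact forall_congr' fun i => by rw [cm, r3 i s hs']; rfl
          simp only [term, t0]
          rw [if_pos (by rwa [cm, r3 j s hs']), ← mp.measureReal_preimage mR.nullMeasurableSet,
            ← mp.measureReal_preimage (mC j).nullMeasurableSet,
            ← mp.measureReal_preimage ((mC j).inter mR).nullMeasurableSet, preimage_inter, eC, eR]
        · nlinarith
      · have m1 := (co T Φ s (T^[n i] x)).measurable (hB i)
        have m2 := (β2 (T^[n i] x)).symm.measurable
          ((R (J (T^[s] (T^[n i] x)))).measurable (hD (d s i)))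
        rw [preimage_comp, ← preimage_symmDiff, ((jc _).mp _).measureReal_preimage
          (m1.symmDiff m2).nullMeasurableSet]
        refine (measureReal_symmDiff_le (t := co T Φ2 s (T^[n i] x) ⁻¹' B i) _).trans ?_
        simp only [e, add_assoc]
        refine add_le_add (le_of_eq (congrArg _ ?_)) (le_trans (le_of_eq ?_) (hd s i))
        · ext y
          simp [W, mem_symmDiff, sk_it]
        · rw [← ((hR (J (T^[s] (T^[n i] x)))).comp (j2.symm.mp (T^[n i] x))).measureReal_preimage
            (((β _).measurable (hB i)).symmDiff (hD _)).nullMeasurableSet, preimage_symmDiff]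
          congr 2
          ext y
          rw [mem_preimage, hΦ2, co_cob, hβ2 (T^[s] _)]
          rfl
    have i1 : ∀ s, Integrable (fun x => term j a (T^[s] x)) μ := fun s =>
      int_of ((tm j a).comp (hT.measurable.iterate s)) fun x => by
        rw [abs_of_nonneg (tn j a _)]; exact t1 j a _
    have i2 := integrable_finsetSum Finset.univ fun i _ => (int_ind mE (hT.iterate (n i))).1
    have i3 := integrable_finsetSum (Finset.range (ℓ a * m)) fun s _ =>
      integrable_finsetSum Finset.univ fun i _ => (ei s i).1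
    have I := integral_mono (integrable_finsetSum _ fun s _ => i1 s)
      (((integrable_const _).add (i2.const_mul _)).add (i3.const_mul _)) pw
    have e1 : ∀ s, ∫ x, term j a (T^[s] x) ∂μ = ∫ x, term j a x ∂μ := fun s => by
      rw [← integral_map (hT.iterate s).measurable.aemeasurable (tm j a).aestronglyMeasurable,
        (hT.iterate s).map_eq]
    rw [integral_finsetSum _ fun s _ => i1 s, integral_add' ((integrable_const _).add
      (i2.const_mul _)) (i3.const_mul _), integral_add' (integrable_const _) (i2.const_mul _),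
      integral_const_mul ((ℓ a * m : ℕ) : ℝ), integral_const_mul (3 : ℝ), integral_finsetSum _
        fun i _ => (int_ind mE (hT.iterate (n i))).1,
      integral_finsetSum _ fun s _ => integrable_finsetSum Finset.univ fun i _ => (ei s i).1] at I
    have e2 : ∑ s ∈ Finset.range (ℓ a * m), ∫ x, ∑ i, e s i x ∂μ ≤
        (ℓ a * m : ℕ) * (Fintype.card ι * (3 * η)) := by
      refine (Finset.sum_le_sum (g := fun _ => Fintype.card ι * (3 * η)) fun s hs => ?_).trans
        (by simp)
      rw [integral_finsetSum _ fun i _ => (ei s i).1]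
      exact (Finset.sum_le_sum fun i _ => (ei s i).2 (Finset.mem_range.1 hs)).trans (by simp)
    simp only [e1, (int_ind mE (hT.iterate _)).2, Finset.sum_const, Finset.card_range,
      nsmul_eq_mul, Finset.card_univ, integral_const, probReal_univ, one_smul] at I
    have L1 : (0 : ℝ) < (ℓ a * m : ℕ) := by exact_mod_cast L0
    have s0 : (0 : ℝ) < √m := Real.sqrt_pos.2 (by exact_mod_cast m0)
    have e3 : (N : ℝ) ^ Fintype.card ι * (ℓ a * √m) =
        (ℓ a * m : ℕ) * (N ^ Fintype.card ι / √m) := by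
      have := Real.mul_self_sqrt (Nat.cast_nonneg (α := ℝ) m)
      push_cast
      field_simp
      rw [sq, this]
    have e4 := mul_le_mul_of_nonneg_left (mul_le_mul_of_nonneg_left hE
      (Nat.cast_nonneg (α := ℝ) (Fintype.card ι))) L1.le
    refine le_of_mul_le_mul_left ?_ L1
    linarith
  have mN : MeasurableSet {x | ¬ Function.Injective fun i => pc (T^[n i] x)} :=
    (measurable_pi_lambda (fun x i => pc (T^[n i] x)) fun i => mpc.comp (hT.measurable.iterate _))
      (MeasurableSet.of_discrete (s := {w : ι → ℕ | ¬ Function.Injective w}))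
  obtain ⟨i2, i3⟩ := int_ind (μ := μ) mN (MeasurePreserving.id μ)
  have i4 := integrable_finsetSum Finset.univ fun j _ =>
    integrable_finsetSum (Finset.range M) fun a _ => ti j a
  refine (integral_mono_of_nonneg (Eventually.of_forall fun _ => abs_nonneg _) (i2.add i4)
    (Eventually.of_forall fun x => ?_)).trans ?_
  · have p3 : 0 ≤ ∑ j, ∑ a ∈ Finset.range M, term j a x :=
      Finset.sum_nonneg fun _ _ => Finset.sum_nonneg fun _ _ => tn _ _ _
    have vC : ∀ i, ν.real (B i) = ν.real (C i x) := fun i =>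
      (((jc _).mp _).measureReal_preimage (hB i).nullMeasurableSet).symm
    simp only [Pi.add_apply, id]
    by_cases c : Function.Injective fun i => pc (T^[n i] x)
    · have := tele (ν := ν) (fun i => C i x) (fun i => pc (T^[n i] x)) Finset.univ c.injOn
      simp only [Finset.mem_univ, true_imp_iff] at this
      simp only [vC]
      refine this.trans (le_add_of_nonneg_of_le (ind0 _ _) (Finset.sum_le_sum fun j _ => ?_))
      refine le_trans (le_of_eq ?_) (Finset.single_le_sum (f := fun a => term j a x)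
        (fun _ _ => tn _ _ _) (Finset.mem_range.2 (hpc (T^[n j] x) ▸ Nat.mod_lt _ M0)))
      exact (if_pos rfl).symm
    · rw [indicator_of_mem (s := {x | ¬ Function.Injective fun i => pc (T^[n i] x)}) c]
      have b1 := measureReal_nonneg (μ := ν) (s := {y | ∀ i, co T Φ (n i) x y ∈ B i})
      have b2 := measureReal_le_one (μ := ν) (s := {y | ∀ i, co T Φ (n i) x y ∈ B i})
      have b3 : 0 ≤ ∏ i, ν.real (B i) := Finset.prod_nonneg fun _ _ => measureReal_nonneg
      have b4 : ∏ i, ν.real (B i) ≤ 1 :=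
        Finset.prod_le_one (fun _ _ => measureReal_nonneg) fun _ _ => measureReal_le_one
      rw [abs_le]; constructor <;> linarith
  · rw [integral_add' i2 i4, i3, integral_finsetSum _ fun j _ =>
      integrable_finsetSum (Finset.range M) fun a _ => ti j a]
    refine add_le_add le_rfl ((Finset.sum_le_sum (g := fun _ => M * (N ^ Fintype.card ι / √m +
      Fintype.card ι * (1 / q + 2 * (ℓ M * κ)) + 9 * (Fintype.card ι * η))) fun j _ => ?_).trans
      (by simp))
    rw [integral_finsetSum _ fun a _ => ti j a]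
    exact (Finset.sum_le_sum fun a ha => main j a (Finset.mem_range.1 ha)).trans
      (by rw [Finset.sum_const, Finset.card_range, nsmul_eq_mul])

end Pool.Agent.H.MP_4abfef_an
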