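import Mathlib
import Pool.Agent.H.MP_4abfef_an.C

namespace Pool.Agent.H.MP_4abfef_an

open MeasureTheory Set Filter Topology Pool.Agent.H.MP_5d8c24_an Pool.Agent.H.MP_a7cd30_an

variable {X Y : Type} [MeasurableSpace X] [MeasurableSpace Y] {μ : Measure X} {ν : Measure Y}
  [IsProbabilityMeasure μ] [IsProbabilityMeasure ν]

def Mx (μ : Measure X) (T : X → X) : Prop :=
  ∀ A B, MeasurableSet A → MeasurableSet B →
    Tendsto (fun n => μ.real (T^[n] ⁻¹' A ∩ B)) atTop (𝓝 (μ.real A * μ.real B))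

lemma tower [StandardBorelSpace X] [NullSingletonClass μ] (T : X ≃ᵐ X)
    (hT : MeasurePreserving T μ μ) (mix : Mx μ T) {κ : ℝ} (κ0 : 0 < κ) :
    ∃ (r : X → ℕ) (Z : Set X), Measurable r ∧ MeasurableSet Z ∧ μ.real Z ≤ κ ∧
      ∀ x ∉ Z, r (T x) = r x + 1 := by
  classical
  obtain ⟨f, -, hf, -⟩ := iso (μ := μ)
  let A := f ⁻¹' Icc 0 (min κ 1)
  have mA : MeasurableSet A := hf.measurable measurableSet_Icc
  have vA : μ.real A = min κ 1 := by
    rw [hf.measureReal_preimage measurableSet_Icc.nullMeasurableSet, Measure.real,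
      Measure.restrict_apply measurableSet_Icc, inter_eq_left.2 (Icc_subset_Icc_right
        (min_le_right _ _)), Real.volume_Icc, sub_zero, ENNReal.toReal_ofReal (by positivity)]
  let Ω : Set X := ⋃ n : ℕ, (⇑T.symm)^[n] ⁻¹' A
  have mΩ : MeasurableSet Ω := MeasurableSet.iUnion fun n => T.symm.measurable.iterate n mA
  have vΩ : μ.real Ωᶜ = 0 := by
    have := mix _ _ mΩ.compl mA
    have e : ∀ n : ℕ, (⇑T)^[n] ⁻¹' Ωᶜ ∩ A = ∅ := fun n => eq_empty_of_forall_notMem fun x hx =>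
      hx.1 (mem_iUnion.2 ⟨n, by
        rw [mem_preimage, Function.LeftInverse.iterate T.symm_apply_apply n x]; exact hx.2⟩)
    simp only [e, measureReal_empty] at this
    exact (mul_eq_zero.1 (tendsto_nhds_unique this tendsto_const_nhds)).resolve_right
      (by rw [vA]; positivity)
  have hp : ∀ x, ∃ n : ℕ, (⇑T.symm)^[n] x ∈ A ∨ x ∉ Ω := fun x => by
    by_cases c : x ∈ Ω
    · obtain ⟨n, hn⟩ := mem_iUnion.1 c
      exact ⟨n, Or.inl hn⟩
    · exact ⟨0, Or.inr c⟩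
  refine ⟨fun x => Nat.find (hp x), T ⁻¹' A ∪ Ωᶜ, measurable_find hp fun k =>
    (T.symm.measurable.iterate k mA).union mΩ.compl, (T.measurable mA).union mΩ.compl,
    (measureReal_union_le _ _).trans ?_, fun x hx => ?_⟩
  · rw [vΩ, hT.measureReal_preimage mA.nullMeasurableSet, vA, add_zero]; exact min_le_left _ _
  · simp only [mem_union, not_or, mem_compl_iff, not_not] at hx
    have e : ∀ n : ℕ, (⇑T.symm)^[n + 1] (T x) = (⇑T.symm)^[n] x := fun n => by
      rw [Function.iterate_succ_apply, T.symm_apply_apply]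
    have h2 : T x ∈ Ω := by
      obtain ⟨n, hn⟩ := mem_iUnion.1 hx.2
      exact mem_iUnion.2 ⟨n + 1, by rw [mem_preimage, e]; exact hn⟩
    refine (Nat.find_eq_iff _).2 ⟨Or.inl ?_, fun n hn => not_or.2 ⟨?_, not_not.2 h2⟩⟩
    · rw [e]; exact (Nat.find_spec (hp x)).resolve_right (not_not.2 hx.2)
    · cases n with
      | zero => exact hx.1
      | succ n => rw [e]; exact fun q => Nat.find_min (hp x) (Nat.lt_of_succ_lt_succ hn) (Or.inl q)

lemma finfam [StandardBorelSpace Y] {ι : Type} [Fintype ι] {B : ι → Set Y}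
    (hB : ∀ i, MeasurableSet (B i)) {β : ℕ → X → Y ≃ᵐ Y} (hβ : ∀ l, JM ν (β l)) (h0 : ℕ) {η : ℝ}
    (η0 : 0 < η) : ∃ (N : ℕ) (D : Fin N → Set Y) (bad : Set X), 0 < N ∧
      (∀ d, MeasurableSet (D d)) ∧ MeasurableSet bad ∧ μ.real bad ≤ η ∧
      ∀ x ∉ bad, ∀ l < h0, ∀ i, ∃ d, ν.real (symmDiff (β l x ⁻¹' B i) (D d)) ≤ η := by
  obtain ⟨𝒜, hc, hd⟩ := exists_countable_measureDense ν
  obtain ⟨D, rfl⟩ := hc.exists_eq_range hd.nonempty
  have mD : ∀ d, MeasurableSet (D d) := fun d => hd.measurable _ ⟨d, rfl⟩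
  let bad : ℕ → Set X := fun N => ⋃ l ∈ Finset.range h0, ⋃ i, ⋂ d ∈ Finset.range (N + 1),
    {x | η < ν.real (symmDiff (β l x ⁻¹' B i) (D d))}
  have mb : ∀ N, MeasurableSet (bad N) := fun N =>
    MeasurableSet.biUnion (to_countable _) fun l _ => MeasurableSet.iUnion fun i =>
      MeasurableSet.biInter (to_countable _) fun d _ => measurableSet_lt measurable_const
        (fib_meas (((hβ l).m1 (hB i)).symmDiff (measurable_snd (mD d))))
  have an : Antitone bad := fun N N' h => iUnion₂_mono fun l _ => iUnion_mono fun i =>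
    biInter_subset_biInter_left (s' := (Finset.range (N + 1) : Set ℕ))
      (s := (Finset.range (N' + 1) : Set ℕ)) (by simpa using h)
  have t := tendsto_measure_iInter_atTop (μ := μ) (fun N => (mb N).nullMeasurableSet) an
    ⟨0, measure_ne_top _ _⟩
  have e : ⋂ N, bad N = ∅ := eq_empty_of_forall_notMem fun x hx => by
    have : ∀ l i, ∃ d, ν.real (symmDiff (β l x ⁻¹' B i) (D d)) < η := fun l i => by
      obtain ⟨_, ⟨d, rfl⟩, h⟩ := hd.approx _ ((β l x).measurable (hB i)) (measure_ne_top _ _) η η0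
      exact ⟨d, ENNReal.toReal_lt_of_lt_ofReal h⟩
    choose d hd using this
    obtain ⟨l, hl, hx⟩ := mem_iUnion₂.1 (mem_iInter.1 hx
      ((Finset.range h0 ×ˢ Finset.univ).sup fun p => d p.1 p.2))
    obtain ⟨i, hx⟩ := mem_iUnion.1 hx
    exact (hd l i).not_gt (mem_iInter₂.1 hx (d l i) (Finset.mem_range.2 (Nat.lt_succ_of_le
      (Finset.le_sup (f := fun p : ℕ × ι => d p.1 p.2) (b := (l, i)) (by simpa using hl)))))
  rw [e, measure_empty] at t
  obtain ⟨N, hN⟩ := (t.eventually (gt_mem_nhds (ENNReal.ofReal_pos.2 η0))).exists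
  refine ⟨N + 1, fun d => D d, bad N, N.succ_pos, fun d => mD d, mb N,
    (ENNReal.toReal_lt_of_lt_ofReal hN).le, fun x hx l hl i => ?_⟩
  by_contra! c
  exact hx (mem_iUnion₂.2 ⟨l, Finset.mem_range.2 hl, mem_iUnion.2 ⟨i, mem_iInter₂.2
    fun d hd => c ⟨d, Finset.mem_range.1 hd⟩⟩⟩)

lemma noninj {ι : Type} [Fintype ι] {T : X → X} (hT : MeasurePreserving T μ μ) (mix : Mx μ T)
    {pc : X → ℕ} (mpc : Measurable pc) {M : ℕ} (M0 : 0 < M) (h1 : ∀ x, pc x < M)
    (h2 : ∀ a < M, μ.real {x | pc x = a} ≤ 2 / M) : ∃ N0 : ℕ, ∀ n : ι → ℕ,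
      (∀ i j, i ≠ j → n i + N0 ≤ n j ∨ n j + N0 ≤ n i) →
      μ.real {x | ¬ Function.Injective fun i => pc (T^[n i] x)} ≤
        Fintype.card ι ^ 2 * (5 / M) := by
  have m : ∀ a, MeasurableSet {x | pc x = a} := fun a => mpc (measurableSet_singleton a)
  have M1 : (0 : ℝ) < M := by exact_mod_cast M0
  obtain ⟨N0, hN⟩ := eventually_atTop.1 ((eventually_all_finset (Finset.range M)).2
    fun a ha => (mix _ _ (m a) (m a)).eventually (gt_mem_nhds (a := 5 / (M : ℝ) ^ 2) (by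
      have := h2 a (Finset.mem_range.1 ha)
      refine (mul_self_le_mul_self measureReal_nonneg this).trans_lt ?_
      rw [div_mul_div_comm, ← sq (M : ℝ)]
      exact div_lt_div_of_pos_right (by norm_num) (by positivity))))
  have a : ∀ u v, u + N0 ≤ v → μ.real {x | pc (T^[u] x) = pc (T^[v] x)} ≤ 5 / M := by
    intro u v h
    obtain ⟨d, rfl⟩ := Nat.exists_eq_add_of_le' (le_of_add_le_left h)
    refine (measureReal_mono (s₂ := ⋃ a ∈ Finset.range M,
      T^[u] ⁻¹' (T^[d] ⁻¹' {x | pc x = a} ∩ {x | pc x = a})) (fun x hx => mem_iUnion₂.2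
        ⟨_, Finset.mem_range.2 (h1 _), ?_, rfl⟩) (measure_ne_top _ _)).trans
        ((measureReal_biUnion_finset_le _ _).trans
        ((Finset.sum_le_sum (g := fun _ => 5 / (M : ℝ) ^ 2) fun a ha => ?_).trans (le_of_eq ?_)))
    · rw [mem_preimage, ← Function.iterate_add_apply]; exact hx.symm
    · rw [(hT.iterate u).measureReal_preimage
        (((hT.iterate d).measurable (m a)).inter (m a)).nullMeasurableSet]
      exact (hN d (by omega) a ha).le
    · simp only [Finset.sum_const, Finset.card_range, nsmul_eq_mul]; field_simp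
  refine ⟨N0, fun n hn => (measureReal_mono (s₂ := ⋃ p : ι × ι,
    {x | p.1 ≠ p.2 ∧ pc (T^[n p.1] x) = pc (T^[n p.2] x)}) fun x hx => ?_).trans
    ((measureReal_iUnion_fintype_le _).trans ((Finset.sum_le_sum (g := fun _ => 5 / (M : ℝ))
      fun p _ => ?_).trans (by simp [sq])))⟩
  · obtain ⟨i, j, h, h'⟩ := Function.not_injective_iff.1 hx
    exact mem_iUnion.2 ⟨(i, j), h', h⟩
  · by_cases c : p.1 = p.2
    · simp only [c, ne_eq, not_true, false_and, ofPred_false, measureReal_empty]; positivity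
    rcases hn _ _ c with h | h
    · exact (measureReal_mono fun x hx => hx.2).trans (a _ _ h)
    · exact (measureReal_mono fun x hx => hx.2.symm).trans (a _ _ h)

lemma dens [StandardBorelSpace X] [NullSingletonClass μ] [StandardBorelSpace Y]
    [NullSingletonClass ν] {ι : Type} [Fintype ι] (T : X ≃ᵐ X) (hT : MeasurePreserving T μ μ)
    (mix : Mx μ T) {B : ι → Set Y} (hB : ∀ i, MeasurableSet (B i)) {Φ0 : X → Y ≃ᵐ Y}
    (j0 : JM ν Φ0) {ε δ : ℝ} (ε0 : 0 < ε) (δ0 : 0 < δ) :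
    ∃ (Φ2 : X → Y ≃ᵐ Y) (Z : Set X) (L N0 : ℕ) (η : ℝ), JM ν Φ2 ∧ μ.real Z ≤ δ ∧
      (∀ x ∉ Z, Φ2 x = Φ0 x) ∧ 0 < η ∧ ∀ Φ, JM ν Φ →
      (∀ s < L, ∀ i, (μ.prod ν).real (symmDiff ((sk T Φ)^[s] ⁻¹' (univ ×ˢ B i))
        ((sk T Φ2)^[s] ⁻¹' (univ ×ˢ B i))) ≤ η) → ∀ n : ι → ℕ,
      (∀ i j, i ≠ j → n i + N0 ≤ n j ∨ n j + N0 ≤ n i) → Q μ ν T Φ n B ≤ ε := by
  obtain ⟨M, hM⟩ := exists_nat_gt (10 * (Fintype.card ι : ℝ) ^ 2 / ε)
  have M1 : (0 : ℝ) < M := lt_of_le_of_lt (by positivity) hM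
  have M0 : 0 < M := by exact_mod_cast M1
  obtain ⟨h0, hh⟩ := exists_nat_gt (2 / δ)
  have h1 : (0 : ℝ) < h0 := lt_of_le_of_lt (by positivity) hh
  have h00 : 0 < h0 := by exact_mod_cast h1
  obtain ⟨η, η0, η1, η2, η3⟩ : ∃ η : ℝ, 0 < η ∧ η ≤ 1 / M ^ 2 ∧ η ≤ δ / 4 ∧
      Fintype.card ι * (M * ((1 + 12 * Fintype.card ι) * η)) ≤ ε / 2 := by
    refine ⟨min (min (1 / M ^ 2) (δ / 4))
      (ε / 2 / (Fintype.card ι * (M * (1 + 12 * Fintype.card ι)) + 1)), by positivity,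
      (min_le_left _ _).trans (min_le_left _ _), (min_le_left _ _).trans (min_le_right _ _), ?_⟩
    have := min_le_right (min (1 / (M : ℝ) ^ 2) (δ / 4))
      (ε / 2 / (Fintype.card ι * (M * (1 + 12 * Fintype.card ι)) + 1))
    rw [le_div_iff₀ (by positivity)] at this
    have z : 0 ≤ min (min (1 / (M : ℝ) ^ 2) (δ / 4))
      (ε / 2 / (Fintype.card ι * (M * (1 + 12 * Fintype.card ι)) + 1)) := by positivity
    linarith
  let βl : ℕ → X → Y ≃ᵐ Y := fun l x => co T Φ0 l ((⇑T.symm)^[l] x)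
  have jl : ∀ l, JM ν (βl l) := fun l =>
    (j0.co T.measurable l).comp (T.symm.measurable.iterate l)
  obtain ⟨N, D, bad, N0, hD, mb, hb, hbad⟩ := finfam (μ := μ) hB jl h0 η0
  obtain ⟨m, hm⟩ := exists_nat_gt (((N : ℝ) ^ Fintype.card ι / η) ^ 2)
  have m1 : (0 : ℝ) < m := lt_of_le_of_lt (by positivity) hm
  have m0 : 0 < m := by exact_mod_cast m1
  obtain ⟨q, hq⟩ := exists_nat_gt (1 / η)
  have q1 : (0 : ℝ) < q := lt_of_le_of_lt (by positivity) hq
  have q0 : 0 < q := by exact_mod_cast q1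
  obtain ⟨R, hR, hR'⟩ := indep (μ := ν) hD m
  let ℓ : ℕ → ℕ := fun a => h0 * (m * q) ^ a
  have ℓ0 : ∀ a, 0 < ℓ a := fun a => by positivity
  have ℓ1 : (0 : ℝ) < ℓ M := by exact_mod_cast ℓ0 M
  obtain ⟨r, Z, hr, mZ, hZ, hrZ⟩ := tower T hT mix (κ := η / ℓ M) (by positivity)
  have ek : ℓ M * (η / ℓ M) = η := mul_div_cancel₀ _ ℓ1.ne'
  let pc : X → ℕ := fun x => r x / ℓ M % M
  let J : X → ℕ := fun x => r x / ℓ (pc x) % m
  have mpc : Measurable pc := (measurable_from_top (f := (· / ℓ M % M))).comp hr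
  have mJ : Measurable J := (measurable_from_top
    (f := fun n => n / ℓ (n / ℓ M % M) % m)).comp hr
  let β : X → Y ≃ᵐ Y := fun x => βl (r x % h0) x
  have jβ : JM ν β := JM.sel jl ((measurable_from_top (f := (· % h0))).comp hr)
  let β2 : X → Y ≃ᵐ Y := fun x => (R (J x)).trans (β x)
  have j2 : JM ν β2 := (JM.sel (fun c => JM.const (hR c)) mJ).trans jβ
  obtain ⟨N0', hN0⟩ := noninj (ι := ι) hT mix mpc M0 (fun x => Nat.mod_lt _ M0) fun a ha => by
    have := distr2 hT hr mZ hZ hrZ (ℓ0 M) M0 a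
    rw [Nat.mod_eq_of_lt ha, ek] at this
    refine this.trans ?_
    have : M * η ≤ 1 / M := by
      rw [le_div_iff₀ (by positivity)] at η1 ⊢
      linarith
    linarith [show (2 : ℝ) / M = 1 / M + 1 / M by ring]
  refine ⟨fun x => (β2 x).symm.trans (β2 (T x)), Z ∪ {x | r x / 1 % h0 = (h0 - 1) % h0}, ℓ M, N0',
    η, j2.symm.trans (j2.comp T.measurable), ?_, fun x hx => ?_, η0, fun Φ hΦ hcl n hn => ?_⟩
  · refine (measureReal_union_le _ _).trans ((add_le_add hZ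
      (distr2 hT hr mZ hZ hrZ one_pos h00 _)).trans ?_)
    have a1 : (h0 : ℝ) ≤ ℓ M := by
      exact_mod_cast Nat.le_mul_of_pos_right h0 (show 0 < (m * q) ^ M by positivity)
    have a2 : (1 : ℝ) ≤ h0 := by exact_mod_cast h00
    have a3 : 0 < η / ℓ M := by positivity
    have a4 : 1 / (h0 : ℝ) ≤ δ / 2 := by
      rw [div_lt_iff₀ δ0] at hh
      rw [div_le_iff₀ h1]; linarith
    push_cast
    nlinarith
  · simp only [mem_union, not_or, mem_ofPred_eq] at hx
    have e1 := hrZ x hx.1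
    have e2 : ∀ a, r (T x) / ℓ a = r x / ℓ a := fun a => by
      have := nocross ((m * q) ^ a) one_pos h00 le_rfl hx.2
      rwa [one_mul, ← e1] at this
    have e3 : J (T x) = J x := by simp only [J, pc, e2]
    have e4 : r (T x) % h0 = r x % h0 + 1 := by
      have := hx.2
      rw [Nat.div_one, Nat.mod_eq_of_lt (show h0 - 1 < h0 by omega)] at this
      have := Nat.mod_lt (r x) h00
      rw [e1, ← Nat.mod_add_mod, Nat.mod_eq_of_lt (by omega)]
    ext y
    simp only [β2, β, βl, e3, e4, co, Function.iterate_succ_apply, MeasurableEquiv.trans_apply,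
      MeasurableEquiv.symm_apply_apply, Function.LeftInverse.iterate T.apply_symm_apply _ x]
    exact congrArg _ ((β2 x).apply_symm_apply y)
  · refine (core hT hB hr mZ hZ hrZ N0 m0 q0 h00 M0 hD mb hb
      (fun x hx i => hbad x hx _ (Nat.mod_lt _ h00) i) hR hR' (ℓ := ℓ) (fun _ => rfl)
      (pc := pc) (J := J) (fun _ => rfl) (fun _ => rfl) (β2 := β2) (fun _ => rfl) j2 rfl hΦ hcl
      n).trans ?_
    have a1 := hN0 n hn
    have a2 : (N : ℝ) ^ Fintype.card ι / √m ≤ η := by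
      have := Real.lt_sqrt_of_sq_lt hm
      rw [div_lt_iff₀ η0] at this
      rw [div_le_iff₀ (Real.sqrt_pos.2 m1)]; linarith
    have a3 : 1 / (q : ℝ) ≤ η := by
      rw [div_lt_iff₀ η0] at hq
      rw [div_le_iff₀ q1]; linarith
    have a4 : (Fintype.card ι : ℝ) ^ 2 * (5 / M) ≤ ε / 2 := by
      rw [div_lt_iff₀ ε0] at hM
      rw [← mul_div_assoc, div_le_iff₀ M1]; linarith
    have c0 : (0 : ℝ) ≤ Fintype.card ι := Nat.cast_nonneg _
    have a5 : (N : ℝ) ^ Fintype.card ι / √m + Fintype.card ι * (1 / q + 2 * η) +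
        9 * (Fintype.card ι * η) ≤ (1 + 12 * Fintype.card ι) * η := by
      nlinarith [mul_le_mul_of_nonneg_left a3 c0]
    rw [ek]
    linarith [mul_le_mul_of_nonneg_left (mul_le_mul_of_nonneg_left a5 M1.le) c0]

end Pool.Agent.H.MP_4abfef_an
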