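import Mathlib
import Pool.Agent.H.MP_4abfef_an.D

namespace Pool.Agent.H.MP_4abfef_an

open MeasureTheory Set Filter Topology

section
variable {Z : Type} [mZ : MeasurableSpace Z] {ρ : Measure Z} [IsProbabilityMeasure ρ]

lemma conv_all {ι : Type} {l : Filter ι} {V : ι → Z → Z} (hV : ∀ m, MeasurePreserving (V m) ρ ρ)
    {S : Z → Z} (hS : MeasurePreserving S ρ ρ) {P : Set (Set Z)}
    (hP : mZ = MeasurableSpace.generateFrom P) (hP' : IsPiSystem P)
    (h : ∀ F ∈ P, Tendsto (fun m => ρ.real (symmDiff (V m ⁻¹' F) (S ⁻¹' F))) l (𝓝 0))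
    (F : Set Z) (hF : MeasurableSet F) :
    Tendsto (fun m => ρ.real (symmDiff (V m ⁻¹' F) (S ⁻¹' F))) l (𝓝 0) := by
  induction F, hF using MeasurableSpace.induction_on_inter hP hP' with
  | empty => simpa using tendsto_const_nhds
  | basic t ht => exact h t ht
  | compl t ht ih => simpa only [preimage_compl, compl_symmDiff_compl] using ih
  | iUnion f hd hf ih =>
    have e : Summable fun i => ρ.real (f i) := (ENNReal.hasSum_toReal (f := fun i => ρ (f i))
      (by rw [← measure_iUnion hd hf]; exact measure_ne_top _ _)).summable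
    have b : ∀ m k, ‖ρ.real (symmDiff (V m ⁻¹' f k) (S ⁻¹' f k))‖ ≤
        ρ.real (f k) + ρ.real (f k) := fun m k => by
      rw [Real.norm_eq_abs, abs_of_nonneg measureReal_nonneg]
      refine (measureReal_mono symmDiff_subset_union).trans
        ((measureReal_union_le _ _).trans (le_of_eq ?_))
      rw [(hV m).measureReal_preimage (hf k).nullMeasurableSet,
        hS.measureReal_preimage (hf k).nullMeasurableSet]
    have := tendsto_tsum_of_dominated_convergence (e.add e) ih (Eventually.of_forall b)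
    rw [tsum_zero] at this
    refine squeeze_zero (fun _ => measureReal_nonneg) (fun m => ?_) this
    have s := Summable.of_norm_bounded (e.add e) (b m)
    rw [Measure.real, ← ENNReal.toReal_ofReal (tsum_nonneg fun _ => measureReal_nonneg),
      ENNReal.ofReal_tsum_of_nonneg (fun _ => measureReal_nonneg) s]
    refine ENNReal.toReal_mono ?_ ((measure_mono (t := ⋃ k,
      symmDiff (V m ⁻¹' f k) (S ⁻¹' f k)) fun x hx => ?_).trans ((measure_iUnion_le _).trans
        (le_of_eq (tsum_congr fun k => (ofReal_measureReal (measure_ne_top _ _)).symm))))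
    · rw [← ENNReal.ofReal_tsum_of_nonneg (fun _ => measureReal_nonneg) s]
      exact ENNReal.ofReal_ne_top
    · simp only [mem_symmDiff, mem_preimage, mem_iUnion, not_exists] at hx ⊢
      rcases hx with ⟨⟨k, h1⟩, h2⟩ | ⟨⟨k, h1⟩, h2⟩
      exacts [⟨k, Or.inl ⟨h1, h2 k⟩⟩, ⟨k, Or.inr ⟨h1, h2 k⟩⟩]

lemma conv_pow {ι : Type} {l : Filter ι} {V : ι → Z → Z} (hV : ∀ m, MeasurePreserving (V m) ρ ρ)
    {S : Z → Z} (hS : MeasurePreserving S ρ ρ) (h : ∀ F, MeasurableSet F →
      Tendsto (fun m => ρ.real (symmDiff (V m ⁻¹' F) (S ⁻¹' F))) l (𝓝 0)) (s : ℕ)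
    (F : Set Z) (hF : MeasurableSet F) :
    Tendsto (fun m => ρ.real (symmDiff ((V m)^[s] ⁻¹' F) (S^[s] ⁻¹' F))) l (𝓝 0) := by
  induction s with
  | zero => simpa using tendsto_const_nhds
  | succ s ih =>
    have := ih.add (h _ ((hS.iterate s).measurable hF))
    rw [add_zero] at this
    refine squeeze_zero (fun _ => measureReal_nonneg) (fun m => ?_) this
    refine (measureReal_symmDiff_le (t := V m ⁻¹' (S^[s] ⁻¹' F)) _).trans
      (add_le_add (le_of_eq ?_) le_rfl)
    rw [← (hV m).measureReal_preimage ((((hV m).iterate s).measurable hF).symmDiff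
      ((hS.iterate s).measurable hF)).nullMeasurableSet, preimage_symmDiff]
    rfl

def MixP (ρ : Measure Z) (V : Z → Z) {κ : Type} {k : ℕ} (l : Filter κ) (n : κ → Fin k → ℕ) :
    Prop :=
  ∀ E : Fin k → Set Z, (∀ i, MeasurableSet (E i)) →
    Tendsto (fun m => ρ.real (⋂ i, V^[n m i] ⁻¹' E i)) l (𝓝 (∏ i, ρ.real (E i)))

lemma MixP.mx {V : Z → Z} (hV : MeasurePreserving V ρ ρ) {κ : Type} {k : ℕ} {l : Filter κ}
    {n : κ → Fin k → ℕ} (h : MixP ρ V l n) {i j : Fin k} (hij : i ≠ j) {g : ℕ → κ}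
    (hg : Tendsto g atTop l) (e : ∀ d, n (g d) i = d + n (g d) j) : Mx ρ V := by
  classical
  intro A B hA hB
  have := (h (fun t => if t = i then A else if t = j then B else univ) fun t => by
    split_ifs
    exacts [hA, hB, MeasurableSet.univ]).comp hg
  rw [Finset.prod_eq_mul i j hij (fun c _ hc => by simp [hc.1, hc.2]) (by simp) (by simp)] at this
  simp only [if_true, if_neg hij.symm] at this
  refine this.congr fun d => ?_
  rw [← (hV.iterate (n (g d) j)).measureReal_preimage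
    (((hV.iterate d).measurable hA).inter hB).nullMeasurableSet, Function.comp]
  congr 1
  ext x
  simp only [mem_iInter, mem_preimage, mem_inter_iff, ← Function.iterate_add_apply, ← e]
  refine ⟨fun q => ⟨by simpa using q i, by simpa [hij.symm] using q j⟩, fun q t => ?_⟩
  split_ifs with c c'
  · subst c; exact q.1
  · subst c'; exact q.2
  · trivial

def ps {k : ℕ} (m : Fin k → ℕ) (i : Fin (k + 1)) : ℕ :=
  ∑ j ∈ Finset.univ.filter fun j : Fin k => j.val < i.val, m j

lemma ps_zero {k : ℕ} (m : Fin k → ℕ) : ps m 0 = 0 := by simp [ps]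

lemma ps_succ {k : ℕ} (m : Fin k → ℕ) (j : Fin k) : ps m j.succ = ∑ i ∈ Finset.Iic j, m i :=
  Finset.sum_congr (by ext i; simp) fun _ _ => rfl

lemma ps_le {k : ℕ} (m : Fin k → ℕ) (i : Fin (k + 1)) : ps m i ≤ ∑ j, m j :=
  Finset.sum_le_sum_of_subset (Finset.filter_subset _ _)

lemma ps_sep {k : ℕ} (N : ℕ) : ∀ᶠ m : Fin k → ℕ in atTop, ∀ i j, i ≠ j →
    ps m i + N ≤ ps m j ∨ ps m j + N ≤ ps m i := by
  filter_upwards [eventually_ge_atTop fun _ => N] with m hm
  have a : ∀ i j : Fin (k + 1), i < j → ps m i + N ≤ ps m j := fun i j h => by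
    have h' : i.val < j.val := h
    have hi : i.val < k := by omega
    refine (add_le_add le_rfl (hm ⟨i, hi⟩)).trans ?_
    rw [ps, add_comm _ (m _), ← Finset.sum_insert (by simp)]
    refine Finset.sum_le_sum_of_subset fun t ht => ?_
    simp only [Finset.mem_insert, Finset.mem_filter, Finset.mem_univ, true_and] at ht ⊢
    rcases ht with rfl | ht
    exacts [h', ht.trans h']
  exact fun i j h => (lt_or_gt_of_ne h).imp (a i j) (a j i)

lemma mix_conv {V : Z → Z} {k : ℕ} {n : (Fin k → ℕ) → Fin (k + 1) → ℕ}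
    {F : (Fin k → ℕ) → Set Z → (Fin k → Set Z) → Set Z}
    (h : ∀ m A B, MeasurableSet A → (∀ j, MeasurableSet (B j)) →
      ρ (F m A B) = ρ (V^[n m 0] ⁻¹' A ∩ ⋂ j, V^[n m j.succ] ⁻¹' B j)) :
    (∀ (A : Set Z) (B : Fin k → Set Z), MeasurableSet A → (∀ j, MeasurableSet (B j)) →
      Tendsto (fun m => ρ (F m A B)) atTop (𝓝 (ρ A * ∏ j, ρ (B j)))) ↔ MixP ρ V atTop n := by
  have e : ∀ (E : Fin (k + 1) → Set Z), (∀ i, MeasurableSet (E i)) →
      (Tendsto (fun m => ρ.real (⋂ i, V^[n m i] ⁻¹' E i)) atTop (𝓝 (∏ i, ρ.real (E i))) ↔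
      Tendsto (fun m => ρ (F m (E 0) fun j => E j.succ)) atTop
        (𝓝 (ρ (E 0) * ∏ j : Fin k, ρ (E j.succ)))) := fun E hE => by
    rw [← Fin.prod_univ_succ fun i => ρ (E i), ← ENNReal.tendsto_toReal_iff
      (fun _ => measure_ne_top _ _) (ENNReal.prod_ne_top fun _ _ => measure_ne_top _ _),
      ENNReal.toReal_prod]
    refine tendsto_congr fun m => ?_
    rw [h m _ _ (hE 0) fun j => hE _, Measure.real]
    congr 2
    ext x
    simp only [mem_iInter, mem_inter_iff, Fin.forall_fin_succ]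
  refine ⟨fun H E hE => (e E hE).2 (H _ _ (hE 0) fun j => hE _), fun H A B hA hB => ?_⟩
  have hE : ∀ i, MeasurableSet ((Fin.cons A B : Fin (k + 1) → Set Z) i) := fun i =>
    Fin.cases hA hB i
  simpa using (e _ hE).1 (H _ hE)

lemma mix_img [StandardBorelSpace Z] {V : Z → Z} (hV : MeasurePreserving V ρ ρ)
    (hi : Function.Injective V) (k : ℕ) :
    (∀ (A : Set Z) (B : Fin k → Set Z), MeasurableSet A → (∀ j, MeasurableSet (B j)) →
      Tendsto (fun m : Fin k → ℕ => ρ (A ∩ ⋂ j, V^[∑ i ∈ Finset.Iic j, m i] '' B j)) atTop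
        (𝓝 (ρ A * ∏ j, ρ (B j)))) ↔
      MixP ρ V atTop fun (m : Fin k → ℕ) i => ∑ j, m j - ps m i := by
  refine mix_conv fun m A B hA hB => ?_
  rw [← (hV.iterate (∑ j, m j)).measure_preimage (hA.inter (MeasurableSet.iInter fun j =>
    (((hV.iterate _).measurable.measurableEmbedding (hi.iterate _)).measurableSet_image.2
      (hB j)))).nullMeasurableSet, preimage_inter, preimage_iInter, ps_zero, Nat.sub_zero]
  congr 2
  refine iInter_congr fun j => ?_
  have := ps_le m j.succ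
  rw [← ps_succ]
  conv_lhs => rw [← Nat.add_sub_cancel' this, Function.iterate_add, preimage_comp,
    preimage_image_eq _ (hi.iterate _)]

lemma mix_pre {V : Z → Z} (k : ℕ) :
    (∀ (A : Set Z) (B : Fin k → Set Z), MeasurableSet A → (∀ j, MeasurableSet (B j)) →
      Tendsto (fun m : Fin k → ℕ => ρ (A ∩ ⋂ j, V^[∑ i ∈ Finset.Iic j, m i] ⁻¹' B j)) atTop
        (𝓝 (ρ A * ∏ j, ρ (B j)))) ↔ MixP ρ V atTop fun (m : Fin k → ℕ) i => ps m i :=
  mix_conv fun m A B _ _ => by simp only [ps_zero, ps_succ]; rfl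

end

variable {X Y : Type} [MeasurableSpace X] [MeasurableSpace Y] {μ : Measure X} {ν : Measure Y}
  [IsProbabilityMeasure μ] [IsProbabilityMeasure ν] [StandardBorelSpace X] [StandardBorelSpace Y]

omit [IsProbabilityMeasure ν] in
lemma JM.of {F : X → Y ≃ᵐ Y} (h1 : ∀ x, MeasurePreserving (F x) ν ν)
    (h2 : Measurable fun p : X × Y => F p.1 p.2) : JM ν F := by
  refine ⟨h1, h2, fun s hs => ?_⟩
  have e := (measurable_fst.prodMk h2).measurableEmbedding fun p q h => by
    obtain ⟨a, b⟩ := Prod.ext_iff.1 h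
    simp only at a b
    rw [a] at b
    exact Prod.ext a ((F _).injective b)
  convert e.measurableSet_image.2 (measurable_snd hs) using 1
  ext p
  refine ⟨fun hp => ⟨(p.1, (F p.1).symm p.2), hp, by simp⟩, ?_⟩
  rintro ⟨q, hq, rfl⟩
  simpa using hq

omit [MeasurableSpace X] [StandardBorelSpace X] [StandardBorelSpace Y] in
lemma sk_inj {T : X → X} (hT : Function.Injective T) (Φ : X → Y ≃ᵐ Y) :
    Function.Injective (sk T Φ) := fun p q h => by
  obtain ⟨a, b⟩ := Prod.ext_iff.1 h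
  have a' : p.1 = q.1 := hT a
  simp only [sk, a'] at b
  exact Prod.ext a' ((Φ _).injective b)

theorem gen [NullSingletonClass μ] [NullSingletonClass ν] (T : X ≃ᵐ X)
    (hT : MeasurePreserving T μ μ) (mix : Mx μ T) {E : Type} [TopologicalSpace E]
    (c : E → X → Y ≃ᵐ Y) (hc : ∀ e, JM ν (c e)) (hs : ∀ Φ, JM ν Φ → ∃ e, c e = Φ)
    (hO : ∀ e0 B, MeasurableSet B → Tendsto (fun e => (μ.prod ν).real
      (symmDiff (sk T (c e) ⁻¹' (univ ×ˢ B)) (sk T (c e0) ⁻¹' (univ ×ˢ B)))) (𝓝 e0) (𝓝 0))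
    (hD : ∀ e0 U, IsOpen U → e0 ∈ U → ∃ δ > 0, ∀ e (Z : Set X), μ.real Z ≤ δ →
      (∀ x ∉ Z, c e x = c e0 x) → e ∈ U) :
    ∀ᶠ e in residual E, ∀ (k : ℕ) (B : Fin k → Set Y), (∀ i, MeasurableSet (B i)) → ∀ ε > 0,
      ∃ N0, ∀ n : Fin k → ℕ, (∀ i j, i ≠ j → n i + N0 ≤ n j ∨ n j + N0 ≤ n i) →
        Q μ ν T (c e) n B ≤ ε := by
  have mp := fun e => sk_mp hT (hc e)
  have h1 : ∀ e0 s F, MeasurableSet F → Tendsto (fun e => (μ.prod ν).real
      (symmDiff ((sk T (c e))^[s] ⁻¹' F) ((sk T (c e0))^[s] ⁻¹' F))) (𝓝 e0) (𝓝 0) := fun e0 =>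
    conv_pow mp (mp e0) (conv_all mp (mp e0) generateFrom_prod.symm isPiSystem_prod (by
      rintro _ ⟨A, -, B, hB, rfl⟩
      refine squeeze_zero (fun _ => measureReal_nonneg) (fun e => measureReal_mono fun x hx => ?_)
        (hO e0 B hB)
      simp only [mem_symmDiff, mem_preimage, mem_prod, sk, mem_univ, true_and] at hx ⊢
      tauto))
  obtain ⟨𝒜, hA, hd⟩ := exists_countable_measureDense ν
  obtain ⟨D, rfl⟩ := hA.exists_eq_range hd.nonempty
  have mD : ∀ d, MeasurableSet (D d) := fun d => hd.measurable _ ⟨d, rfl⟩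
  have h2 : ∀ (k : ℕ) (d : Fin k → ℕ) (j : ℕ), ∀ᶠ e in residual E,
      ∃ N0, ∀ n : Fin k → ℕ, (∀ i j, i ≠ j → n i + N0 ≤ n j ∨ n j + N0 ≤ n i) →
        Q μ ν T (c e) n (fun i => D (d i)) ≤ 1 / (j + 1) := fun k d j => by
    refine mem_of_superset (residual_of_dense_open isOpen_interior (dense_iff_inter_open.2
      fun U hU ⟨e0, h0⟩ => ?_)) interior_subset
    obtain ⟨δ, δ0, hδ⟩ := hD e0 U hU h0
    obtain ⟨Φ2, Z, L, N0, η, j2, hZ, hZ', η0, H⟩ := dens T hT mix (fun i => mD (d i)) (hc e0)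
      (show (0 : ℝ) < 1 / (j + 1) by positivity) δ0
    obtain ⟨e2, rfl⟩ := hs Φ2 j2
    refine ⟨e2, hδ e2 Z hZ hZ', mem_interior_iff_mem_nhds.2 ?_⟩
    filter_upwards [(eventually_all_finset (Finset.range L)).2 fun s _ => eventually_all.2
      fun i : Fin k => (h1 e2 s _ (MeasurableSet.univ.prod (mD (d i)))).eventually
        (ge_mem_nhds η0)] with e he
    exact ⟨N0, H _ (hc e) fun s hs i => he s (Finset.mem_range.2 hs) i⟩
  filter_upwards [eventually_countable_forall.2 fun k => eventually_countable_forall.2 fun d =>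
    eventually_countable_forall.2 fun j => h2 k d j] with e he k B hB ε ε0
  obtain ⟨j, hj⟩ := exists_nat_one_div_lt (half_pos ε0)
  choose D' hD' hd' using fun i => hd.approx _ (hB i) (measure_ne_top _ _) (ε / 2 / (2 * k + 1))
    (by positivity)
  choose d hdd using hD'
  obtain ⟨N0, hN⟩ := he k d j
  refine ⟨N0, fun n hn => ?_⟩
  have jc := (hc e).co T.measurable
  have ms : ∀ B : Fin k → Set Y, (∀ i, MeasurableSet (B i)) →
      MeasurableSet {p : X × Y | ∀ i, co T (c e) (n i) p.1 p.2 ∈ B i} := fun B hB => by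
    simp only [ofPred_forall]
    exact MeasurableSet.iInter fun i => (jc (n i)).m1 (hB i)
  have a0 : ∀ i, ν.real (symmDiff (B i) (D (d i))) ≤ ε / 2 / (2 * k + 1) := fun i =>
    hdd i ▸ (ENNReal.toReal_lt_of_lt_ofReal (hd' i)).le
  have a1 : |∏ i, ν.real (B i) - ∏ i, ν.real (D (d i))| ≤ k * (ε / 2 / (2 * k + 1)) := by
    have e1 : ∀ B : Fin k → Set Y, ∏ i, ν.real (B i) =
        (Measure.pi fun _ : Fin k => ν).real (univ.pi B) := fun B => by
      rw [Measure.real, Measure.pi_pi, ENNReal.toReal_prod]; rfl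
    rw [e1, e1]
    refine (abs_measureReal_sub_le_measureReal_symmDiff
      (MeasurableSet.univ_pi hB).nullMeasurableSet
      (MeasurableSet.univ_pi fun i => mD _).nullMeasurableSet).trans ((measureReal_mono
        (s₂ := ⋃ i, (fun z => z i) ⁻¹' symmDiff (B i) (D (d i))) fun z hz => ?_).trans
        ((measureReal_iUnion_fintype_le _).trans ((Finset.sum_le_sum
          (g := fun _ => ε / 2 / (2 * k + 1)) fun i _ => ?_).trans (by simp))))
    · simp only [mem_symmDiff, mem_univ_pi, mem_iUnion, mem_preimage, not_forall] at hz ⊢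
      rcases hz with ⟨h1, i, h2⟩ | ⟨h1, i, h2⟩
      exacts [⟨i, Or.inl ⟨h1 i, h2⟩⟩, ⟨i, Or.inr ⟨h1 i, h2⟩⟩]
    · exact ((measurePreserving_eval (fun _ : Fin k => ν) i).measureReal_preimage
        ((hB i).symmDiff (mD _)).nullMeasurableSet).trans_le (a0 i)
  have a2 : ∀ x, |ν.real {y | ∀ i, co T (c e) (n i) x y ∈ B i} -
      ν.real {y | ∀ i, co T (c e) (n i) x y ∈ D (d i)}| ≤ k * (ε / 2 / (2 * k + 1)) := fun x => by
    refine (abs_measureReal_sub_le_measureReal_symmDiff
      (measurable_prodMk_left (ms B hB)).nullMeasurableSet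
      (measurable_prodMk_left (ms _ fun i => mD _)).nullMeasurableSet).trans ((measureReal_mono
        (s₂ := ⋃ i, co T (c e) (n i) x ⁻¹' symmDiff (B i) (D (d i))) fun z hz => ?_).trans
        ((measureReal_iUnion_fintype_le _).trans ((Finset.sum_le_sum
          (g := fun _ => ε / 2 / (2 * k + 1)) fun i _ => ?_).trans (by simp))))
    · simp only [mem_symmDiff, mem_ofPred_eq, mem_iUnion, mem_preimage, not_forall] at hz ⊢
      rcases hz with ⟨h1, i, h2⟩ | ⟨h1, i, h2⟩
      exacts [⟨i, Or.inl ⟨h1 i, h2⟩⟩, ⟨i, Or.inr ⟨h1 i, h2⟩⟩]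
    · exact (((jc _).mp _).measureReal_preimage
        ((hB i).symmDiff (mD _)).nullMeasurableSet).trans_le (a0 i)
  have i1 : Integrable (fun x => |ν.real {y | ∀ i, co T (c e) (n i) x y ∈ D (d i)} -
      ∏ i, ν.real (D (d i))|) μ := ((int_of (fib_meas (ms _ fun i => mD _)) fun x => by
        rw [abs_of_nonneg measureReal_nonneg]; exact measureReal_le_one).sub
          (integrable_const _)).abs
  refine (integral_mono_of_nonneg (Eventually.of_forall fun _ => abs_nonneg _)
    (i1.add (integrable_const (ε / 2))) (Eventually.of_forall fun x => ?_)).trans ?_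
  · have b1 := a2 x
    have b2 : 2 * (k * (ε / 2 / (2 * k + 1))) ≤ ε / 2 := by
      rw [← mul_assoc, ← mul_div_assoc, div_le_iff₀ (by positivity)]; nlinarith
    have b3 := le_abs_self (ν.real {y | ∀ i, co T (c e) (n i) x y ∈ D (d i)} -
      ∏ i, ν.real (D (d i)))
    have b4 := neg_abs_le (ν.real {y | ∀ i, co T (c e) (n i) x y ∈ D (d i)} -
      ∏ i, ν.real (D (d i)))
    simp only [Pi.add_apply]
    rw [abs_le] at a1 b1 ⊢
    constructor <;> linarith [a1.1, a1.2, b1.1, b1.2]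
  · rw [integral_add' i1 (integrable_const _)]
    have := hN n hn
    simp only [integral_const, probReal_univ, one_smul]
    exact (add_le_add (this.trans hj.le) le_rfl).trans (le_of_eq (add_halves _))

omit [StandardBorelSpace X] [StandardBorelSpace Y] in
theorem lift {T : X → X} (hT : MeasurePreserving T μ μ) {Φ : X → Y ≃ᵐ Y} (hΦ : JM ν Φ) {k : ℕ}
    (h : ∀ B : Fin k → Set Y, (∀ i, MeasurableSet (B i)) → ∀ ε > 0,
      ∃ N0, ∀ n : Fin k → ℕ, (∀ i j, i ≠ j → n i + N0 ≤ n j ∨ n j + N0 ≤ n i) →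
        Q μ ν T Φ n B ≤ ε) {κ : Type} {l : Filter κ} {n : κ → Fin k → ℕ}
    (sep : ∀ N0, ∀ᶠ m in l, ∀ i j, i ≠ j → n m i + N0 ≤ n m j ∨ n m j + N0 ≤ n m i)
    (mix : MixP μ T l n) : MixP (μ.prod ν) (sk T Φ) l n := by
  refine lam_all (fun m j => (sk_mp hT hΦ).iterate _) generateFrom_prod.symm isPiSystem_prod
    ⟨univ, MeasurableSet.univ, univ, MeasurableSet.univ, univ_prod_univ⟩ fun E hE => ?_
  choose A hA B hB e using hE
  obtain rfl : E = fun j => A j ×ˢ B j := funext fun j => (e j).symm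
  have jc := hΦ.co hT.measurable
  have t1 := (mix A hA).mul_const (∏ i, ν.real (B i))
  rw [← Finset.prod_mul_distrib] at t1
  simp only [measureReal_prod_prod]
  refine (tendsto_sub_nhds_zero_iff.1 (?_ : Tendsto _ _ _)).congr_dist
    (f₁ := fun m => μ.real (⋂ i, T^[n m i] ⁻¹' A i) * ∏ i, ν.real (B i)) ?_
  · exact tendsto_sub_nhds_zero_iff.2 t1
  refine Metric.tendsto_nhds.2 fun ε ε0 => ?_
  obtain ⟨N0, hN⟩ := h B hB _ (half_pos ε0)
  filter_upwards [sep N0] with m hm
  rw [Real.dist_eq, sub_zero, abs_of_nonneg dist_nonneg, Real.dist_eq, abs_sub_comm]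
  refine lt_of_le_of_lt (le_trans ?_ (hN _ hm)) (half_lt_self ε0)
  have m1 : MeasurableSet (⋂ i, T^[n m i] ⁻¹' A i) :=
    MeasurableSet.iInter fun i => (hT.iterate _).measurable (hA i)
  have m2 : MeasurableSet (⋂ i, (sk T Φ)^[n m i] ⁻¹' (A i ×ˢ B i)) :=
    MeasurableSet.iInter fun i => ((sk_mp hT hΦ).iterate _).measurable ((hA i).prod (hB i))
  have m3 : MeasurableSet {p : X × Y | ∀ i, co T Φ (n m i) p.1 p.2 ∈ B i} := by
    simp only [ofPred_forall]
    exact MeasurableSet.iInter fun i => (jc _).m1 (hB i)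
  have i0 : ∀ F : Set (X × Y), MeasurableSet F →
      Integrable (fun x => ν.real (Prod.mk x ⁻¹' F)) μ := fun F hF =>
    int_of (fib_meas hF) fun x => by
      rw [abs_of_nonneg measureReal_nonneg]; exact measureReal_le_one
  obtain ⟨i2, i3⟩ := int_ind (μ := μ) m1 (MeasurePreserving.id μ)
  rw [← fib_int m2, ← i3, ← integral_mul_const, ← integral_sub (i0 _ m2) (i2.mul_const _)]
  refine abs_integral_le_integral_abs.trans (integral_mono_of_nonneg
    (Eventually.of_forall fun _ => abs_nonneg _) ((i0 _ m3).sub (integrable_const _)).abs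
    (Eventually.of_forall fun x => ?_))
  by_cases c : x ∈ ⋂ i, T^[n m i] ⁻¹' A i
  · simp only [id, indicator_of_mem c, one_mul]
    refine le_of_eq (congrArg (fun s => |ν.real s - _|) ?_)
    ext y
    simp only [mem_iInter, mem_preimage] at c
    simp [sk_it, c]
  · simp only [id, indicator_of_notMem c, zero_mul, sub_zero]
    rw [eq_empty_of_forall_notMem (s := Prod.mk x ⁻¹' _) fun y hy => c (by
      simp only [mem_iInter, mem_preimage, sk_it, mem_prod] at hy ⊢
      exact fun i => (hy i).1)]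
    simp

end Pool.Agent.H.MP_4abfef_an
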